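import Mathlib
import Pool.Agent.Helper12.Defs

/-!
MP_ecbc8a_al (S03471), packet 8: `FinIdx`.
-/

set_option autoImplicit false

namespace Pool.Agent.Helper57.FinIdx

open Pool.Agent.Helper12.TwoLen

section aut

variable {A : Type*} [CommGroup A]

/-- an involutive endomorphism of a divisible abelian 2-group, trivial on the elements of order
dividing 4, is trivial -/
lemma autB (h2 : ∀ a : A, ∃ k : ℕ, a ^ (2 ^ k : ℕ) = 1) (hdiv : ∀ a : A, ∃ b : A, b * b = a)
    (α : A →* A) (h4 : ∀ a : A, a ^ 4 = 1 → α a = a) (hα : ∀ a, α (α a) = a) :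
    ∀ a, α a = a := by
  classical
  let δ : A →* A := α / MonoidHom.id A
  have hδ : ∀ a, δ a = α a / a := fun a => rfl
  have hδδ : ∀ a, δ (δ a) = ((δ a) ^ 2)⁻¹ := by
    intro a
    rw [hδ (δ a), hδ a, map_div, hα, sq]
    simp only [div_eq_mul_inv, mul_inv_rev, inv_inv]
  have key : ∀ z, (δ z) ^ 2 = 1 := by
    intro z
    have hex := h2 (δ z)
    set k := Nat.find hex with hk
    have hk1 : (δ z) ^ (2 ^ k : ℕ) = 1 := Nat.find_spec hex
    rcases Nat.lt_or_ge k 2 with hlt | hge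
    · interval_cases k
      · rw [pow_zero, pow_one] at hk1; rw [hk1, one_pow]
      · rw [pow_one] at hk1; exact hk1
    · exfalso
      obtain ⟨j, hj⟩ : ∃ j, k = j + 2 := ⟨k - 2, by omega⟩
      set u := (δ z) ^ (2 ^ j : ℕ) with hu
      have hu4 : u ^ 4 = 1 := by
        rw [hu, ← pow_mul, show 2 ^ j * 4 = 2 ^ k by rw [hj, pow_add]; norm_num]
        exact hk1
      have hu' : u = δ (z ^ (2 ^ j : ℕ)) := by rw [map_pow]
      have h1 : δ u = 1 := by rw [hδ, h4 u hu4, div_self']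
      have h2' : δ u = (u ^ 2)⁻¹ := by rw [hu', hδδ]
      have h3 : u ^ 2 = 1 := by rw [h1] at h2'; rw [← inv_eq_one, ← h2']
      have h5 : (δ z) ^ (2 ^ (j + 1) : ℕ) = 1 := by
        rw [pow_succ, pow_mul]; exact h3
      exact Nat.find_min hex (by omega) h5
  intro a
  obtain ⟨b, rfl⟩ := hdiv a
  have h1 : δ (b * b) = 1 := by rw [map_mul, ← sq]; exact key b
  rw [hδ] at h1
  exact div_eq_one.1 h1

/-- an endomorphism of odd order of an abelian 2-group, trivial on the elements of order dividing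
4, is trivial -/
lemma autA (h2 : ∀ a : A, ∃ k : ℕ, a ^ (2 ^ k : ℕ) = 1)
    (α : A →* A) (h4 : ∀ a : A, a ^ 4 = 1 → α a = a) {o : ℕ} (ho : Odd o)
    (hα : ∀ a, α^[o] a = a) : ∀ a, α a = a := by
  suffices H : ∀ k : ℕ, ∀ a : A, a ^ (2 ^ k : ℕ) = 1 → α a = a by
    intro a
    obtain ⟨k, hk⟩ := h2 a
    exact H k a hk
  intro k
  induction k with
  | zero =>
    intro a ha
    rw [pow_zero, pow_one] at ha
    rw [ha, map_one]
  | succ k ih =>
    intro a ha
    have h1 : α (a ^ 2) = a ^ 2 := by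
      apply ih
      rw [← pow_mul, ← pow_succ']
      exact ha
    have hd : (α a / a) ^ 2 = 1 := by
      rw [div_pow, ← map_pow, h1, div_self']
    have hfix : α (α a / a) = α a / a := by
      apply h4
      rw [show (4 : ℕ) = 2 * 2 from rfl, pow_mul, hd, one_pow]
    have hit : ∀ n : ℕ, α^[n] a = a * (α a / a) ^ n := by
      intro n
      induction n with
      | zero => simp
      | succ n ihn =>
        rw [Function.iterate_succ_apply', ihn, map_mul, map_pow, hfix, pow_succ]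
        have : α a = a * (α a / a) := by rw [mul_div_cancel]
        rw [← mul_assoc, mul_comm (a * (α a / a) ^ n), ← mul_assoc]
        congr 1
        rw [mul_comm (α a / a) a, ← this]
    have h3 := hit o
    rw [hα] at h3
    have h5 : (α a / a) ^ o = 1 := by
      have := h3.symm
      rwa [mul_eq_left] at this
    obtain ⟨m, rfl⟩ := ho
    rw [pow_add, pow_mul, hd, one_pow, one_mul, pow_one] at h5
    exact div_eq_one.1 h5

lemma autC (h2 : ∀ a : A, ∃ k : ℕ, a ^ (2 ^ k : ℕ) = 1) (hdiv : ∀ a : A, ∃ b : A, b * b = a)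
    {o : ℕ} (ho : Odd o) (j : ℕ) : ∀ (α : A →* A), (∀ a : A, a ^ 4 = 1 → α a = a) →
    (∀ a, α^[2 ^ j * o] a = a) → ∀ a, α a = a := by
  induction j with
  | zero =>
    intro α h4 hα
    exact autA h2 α h4 ho (by simpa using hα)
  | succ j ih =>
    intro α h4 hα
    have hβ := ih (α.comp α) (fun a ha => by
      rw [MonoidHom.comp_apply, h4 a ha, h4 a ha]) (fun a => by
      have e : ((α.comp α : A →* A) : A → A) = α^[2] := by
        funext x; rfl
      rw [e, ← Function.iterate_mul]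
      rw [show 2 * (2 ^ j * o) = 2 ^ (j + 1) * o by ring]
      exact hα a)
    exact autB h2 hdiv α h4 hβ

end aut

section index

lemma finiteIndex_of_map {G α : Type*} [Group G] [Finite α] (K : Subgroup G) (f : G → α)
    (h : ∀ x y, f x = f y → x⁻¹ * y ∈ K) : K.FiniteIndex := by
  have : Finite (G ⧸ K) := Finite.of_injective (fun q : G ⧸ K => f q.out) (by
    intro a b hab
    have h1 := h _ _ hab
    rw [← QuotientGroup.eq, QuotientGroup.out_eq', QuotientGroup.out_eq'] at h1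
    exact h1)
  exact Subgroup.finiteIndex_of_finite_quotient

/-- a divisible abelian 2-subgroup is contained in every subgroup of finite index -/
lemma le_of_finiteIndex {G : Type*} [Group G] (D F : Subgroup G) [F.FiniteIndex]
    (h2 : ∀ x ∈ D, E2 x) (hdiv : ∀ x ∈ D, ∃ y ∈ D, y * y = x) : D ≤ F := by
  intro x hx
  obtain ⟨j, o, ho, hjo⟩ : ∃ j o : ℕ, Odd o ∧ F.index.factorial = 2 ^ j * o := by
    obtain ⟨j, o, ho, h⟩ := Nat.exists_eq_two_pow_mul_odd (Nat.factorial_ne_zero F.index)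
    exact ⟨j, o, ho, h⟩
  -- a `2 ^ j`-th root
  have hroot : ∀ j : ℕ, ∀ x ∈ D, ∃ y ∈ D, y ^ (2 ^ j : ℕ) = x := by
    intro j
    induction j with
    | zero => intro x hx; exact ⟨x, hx, by simp⟩
    | succ j ih =>
      intro x hx
      obtain ⟨y, hy, hyx⟩ := ih x hx
      obtain ⟨z, hz, hzy⟩ := hdiv y hy
      refine ⟨z, hz, ?_⟩
      rw [pow_succ', pow_mul, sq, hzy, hyx]
  obtain ⟨y, hy, hyx⟩ := hroot j x hx
  obtain ⟨k, hk⟩ := h2 y hy
  -- an `o`-th root of `y`
  have hcop : Nat.Coprime o (2 ^ k) := Nat.Coprime.pow_right k (Nat.coprime_two_right.2 ho)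
  obtain ⟨z, hz, hzy⟩ : ∃ z ∈ D, z ^ o = y := by
    have h0 := Nat.ModEq.pow_totient hcop
    have hpos : 0 < Nat.totient (2 ^ k) := Nat.totient_pos.2 (by positivity)
    refine ⟨y ^ (o ^ (Nat.totient (2 ^ k) - 1)), pow_mem hy _, ?_⟩
    rw [← pow_mul, ← pow_succ, Nat.sub_add_cancel hpos]
    have h1 : o ^ Nat.totient (2 ^ k) ≡ 1 [MOD orderOf y] :=
      h0.of_dvd (orderOf_dvd_of_pow_eq_one hk)
    have h2 := pow_eq_pow_iff_modEq.2 h1
    rw [h2, pow_one]
  have h3 : z ^ (F.index.factorial) = x := by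
    rw [hjo, mul_comm, pow_mul, hzy, hyx]
  rw [← h3]
  apply Subgroup.pow_mem_of_index_ne_zero_of_dvd Subgroup.FiniteIndex.index_ne_zero
  intro m hm hm'
  exact Nat.dvd_factorial hm hm'

end index

section main

variable {M : Type} [Group M]

/-- the subgroup of the elements which act trivially on `D[4]` and on `P / D` -/
def M1 (P D : Subgroup M) (hP : P.Normal) (hD : ∀ m : M, ∀ x ∈ D, m * x * m⁻¹ ∈ D) :
    Subgroup M where
  carrier := {x | (∀ y ∈ D, y ^ 4 = 1 → x * y = y * x) ∧ ∀ p ∈ P, x * p * x⁻¹ * p⁻¹ ∈ D}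
  one_mem' := ⟨fun y _ _ => by simp, fun p _ => by simpa using D.one_mem⟩
  mul_mem' := by
    rintro a b ⟨ha1, ha2⟩ ⟨hb1, hb2⟩
    refine ⟨fun y hy h4 => ?_, fun p hp => ?_⟩
    · rw [mul_assoc, hb1 y hy h4, ← mul_assoc, ha1 y hy h4, mul_assoc]
    · have h1 := ha2 (b * p * b⁻¹) (hP.conj_mem p hp b)
      have h2 := hb2 p hp
      have h3 := D.mul_mem h1 h2
      convert h3 using 1
      group
  inv_mem' := by
    rintro a ⟨ha1, ha2⟩
    refine ⟨fun y hy h4 => ?_, fun p hp => ?_⟩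
    · have := ha1 y hy h4
      rw [inv_mul_eq_iff_eq_mul, ← mul_assoc, this, mul_assoc, mul_inv_cancel, mul_one]
    · have h1 := ha2 (a⁻¹ * p * a) (by simpa using hP.conj_mem p hp a⁻¹)
      have h2 := D.inv_mem h1
      convert h2 using 1
      group

theorem M1_normal {P D : Subgroup M} (hP : P.Normal) (hD : ∀ m : M, ∀ x ∈ D, m * x * m⁻¹ ∈ D) :
    (M1 P D hP hD).Normal := by
  constructor
  rintro x ⟨h1, h2⟩ g
  refine ⟨fun y hy h4 => ?_, fun p hp => ?_⟩
  · have e1 := h1 (g⁻¹ * y * g) (by simpa using hD g⁻¹ y hy) (by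
      have : (g⁻¹ * y * g) ^ 4 = g⁻¹ * y ^ 4 * g := by
        simpa using conj_pow (a := g⁻¹) (b := y) (i := 4)
      rw [this, h4]; group)
    calc g * x * g⁻¹ * y = g * (x * (g⁻¹ * y * g)) * g⁻¹ := by group
      _ = g * ((g⁻¹ * y * g) * x) * g⁻¹ := by rw [e1]
      _ = y * (g * x * g⁻¹) := by group
  · have e1 := h2 (g⁻¹ * p * g) (by simpa using hP.conj_mem p hp g⁻¹)
    have e2 := hD g _ e1
    convert e2 using 1
    group

theorem finIdx (hC : Cern) : FinIdx := by
  intro M _ hLF P hP hP2 hmax hcent hexp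
  classical
  -- apply Cern to P
  have hLFP : LocFin P := by
    intro H hH
    have h1 : (H.map P.subtype).FG := by
      obtain ⟨S, rfl⟩ := hH
      refine ⟨S.image P.subtype, ?_⟩
      rw [Finset.coe_image, MonoidHom.map_closure]
    have h2 := hLF _ h1
    have : Finite (H.map P.subtype) := h2
    exact Finite.of_equiv _ (H.equivMapOfInjective P.subtype P.subtype_injective).symm.toEquiv
  have hE2P : ∀ x : P, E2 x := by
    intro x
    obtain ⟨k, hk⟩ := hP2 x x.2
    exact ⟨k, Subtype.ext (by simpa using hk)⟩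
  obtain ⟨⟨D', hD'n, hD'f, hD'a, hD'd, hD'2⟩, -⟩ := hC P hLFP hE2P (fun E hE => by
    have h1 := hexp (E.map P.subtype) (by
      rintro _ ⟨x, -, rfl⟩
      exact x.2) (by
      rintro _ ⟨x, hx, rfl⟩
      have := hE x hx
      rw [← map_mul, this, map_one])
    exact Finite.of_equiv _ (E.equivMapOfInjective P.subtype P.subtype_injective).symm.toEquiv)
  set D : Subgroup M := D'.map P.subtype with hDdef
  have hDP : D ≤ P := by
    rintro _ ⟨x, -, rfl⟩
    exact x.2
  have memD : ∀ x : P, (x : M) ∈ D ↔ x ∈ D' := by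
    intro x
    constructor
    · rintro ⟨y, hy, hyx⟩
      have : y = x := Subtype.ext hyx
      rwa [← this]
    · intro hx
      exact ⟨x, hx, rfl⟩
  have hDa : ∀ x ∈ D, ∀ y ∈ D, x * y = y * x := by
    rintro _ ⟨x, hx, rfl⟩ _ ⟨y, hy, rfl⟩
    rw [← map_mul, hD'a x hx y hy, map_mul]
  have hDd : ∀ x ∈ D, ∃ y ∈ D, y * y = x := by
    rintro _ ⟨x, hx, rfl⟩
    obtain ⟨y, hy, hyx⟩ := hD'd x hx
    exact ⟨P.subtype y, ⟨y, hy, rfl⟩, by rw [← map_mul, hyx]⟩
  have hDE2 : ∀ x ∈ D, E2 x := fun x hx => hP2 x (hDP hx)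
  have hD2fin : {x : M | x ∈ D ∧ x * x = 1}.Finite := by
    have h1 := hD'2.image P.subtype
    apply h1.subset
    rintro _ ⟨⟨x, hx, rfl⟩, h2⟩
    refine ⟨x, ⟨hx, ?_⟩, rfl⟩
    apply P.subtype_injective
    rw [map_mul, h2, map_one]
  -- D is normal in M
  have hDn : ∀ m : M, ∀ x ∈ D, m * x * m⁻¹ ∈ D := by
    intro m
    have hle : D' ≤ D'.map (MulAut.conjNormal m⁻¹ : MulAut P).toMonoidHom := by
      have : (D'.map (MulAut.conjNormal m⁻¹ : MulAut P).toMonoidHom).FiniteIndex := by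
        constructor
        change (D'.map ((MulAut.conjNormal m⁻¹ : P ≃* P) : P →* P)).index ≠ 0
        rw [Subgroup.index_map_equiv]
        exact hD'f.index_ne_zero
      exact le_of_finiteIndex D' _ (fun x _ => hE2P x) hD'd
    rintro _ ⟨x, hx, rfl⟩
    obtain ⟨y, hy, hyx⟩ := hle hx
    have h1 : (x : M) = m⁻¹ * y * m := by
      rw [← hyx]
      simp [MulAut.conjNormal_apply]
    change m * (x : M) * m⁻¹ ∈ D
    have h2 : m * (x : M) * m⁻¹ = y := by rw [h1]; group
    rw [h2]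
    exact (memD y).2 hy
  -- D[4] is finite
  have hD4fin : {x : M | x ∈ D ∧ x ^ 4 = 1}.Finite := by
    choose! r hr hr2 using hDd
    have h1 := Set.Finite.image2 (fun u t => r u * t) hD2fin hD2fin
    apply h1.subset
    rintro x ⟨hx, hx4⟩
    have hxx : x * x ∈ D := D.mul_mem hx hx
    refine ⟨x * x, ⟨hxx, ?_⟩, (r (x * x))⁻¹ * x, ⟨D.mul_mem (D.inv_mem (hr _ hxx)) hx, ?_⟩, ?_⟩
    · rw [← hx4]; simp [pow_succ, mul_assoc]
    · have c := hDa x hx (r (x * x))⁻¹ (D.inv_mem (hr _ hxx))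
      calc (r (x * x))⁻¹ * x * ((r (x * x))⁻¹ * x) = (r (x * x))⁻¹ * (x * (r (x * x))⁻¹) * x := by
            group
        _ = (r (x * x))⁻¹ * ((r (x * x))⁻¹ * x) * x := by rw [c]
        _ = (r (x * x) * r (x * x))⁻¹ * (x * x) := by group
        _ = 1 := by rw [hr2 _ hxx, inv_mul_cancel]
    · simp
  set N := M1 P D hP hDn with hN
  -- N has finite index
  have hNfin : N.FiniteIndex := by
    let T := {x : M | x ∈ D ∧ x ^ 4 = 1}
    have hT : Finite T := hD4fin.to_subtype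
    have hQ : Finite (P ⧸ D') := Subgroup.finite_quotient_of_finiteIndex
    let f1 : M → T → T := fun x t => ⟨x * t * x⁻¹, hDn x t t.2.1, by
      have : (x * (t : M) * x⁻¹) ^ 4 = x * (t : M) ^ 4 * x⁻¹ := conj_pow
      rw [this, t.2.2]; group⟩
    let f2 : M → (P ⧸ D') → (P ⧸ D') := fun x t => QuotientGroup.mk (MulAut.conjNormal x t.out)
    refine finiteIndex_of_map N (fun x => (f1 x, f2 x)) ?_
    intro x y hxy
    rw [Prod.mk.injEq] at hxy
    obtain ⟨e1, e2⟩ := hxy
    refine ⟨fun z hz hz4 => ?_, fun p hp => ?_⟩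
    · have h1 := congrFun e1 ⟨z, hz, hz4⟩
      have h2 : x * z * x⁻¹ = y * z * y⁻¹ := congrArg Subtype.val h1
      calc x⁻¹ * y * z = x⁻¹ * (y * z * y⁻¹) * y := by group
        _ = x⁻¹ * (x * z * x⁻¹) * y := by rw [h2]
        _ = z * (x⁻¹ * y) := by group
    · -- conjugates of `p` by `x` and `y` agree modulo `D`
      have hc : ∀ w : M, ∃ d ∈ D, w * p * w⁻¹ =
          (MulAut.conjNormal w (QuotientGroup.mk (s := D') (⟨p, hp⟩ : P)).out : P) * d := by
        intro w
        obtain ⟨d, hd⟩ := QuotientGroup.mk_out_eq_mul D' (⟨p, hp⟩ : P)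
        refine ⟨w * (d : P)⁻¹ * w⁻¹, hDn w _ (D.inv_mem ((memD _).2 d.2)), ?_⟩
        rw [hd, MulAut.conjNormal_apply]
        push_cast
        group
      obtain ⟨d1, hd1, hx1⟩ := hc x
      obtain ⟨d2, hd2, hy1⟩ := hc y
      have h3 := congrFun e2 (QuotientGroup.mk (s := D') (⟨p, hp⟩ : P))
      simp only [f2] at h3
      rw [QuotientGroup.eq] at h3
      have h4 := (memD _).2 h3
      push_cast at h4
      set a : M := ((MulAut.conjNormal x (QuotientGroup.mk (s := D') (⟨p, hp⟩ : P)).out : P) : M)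
      set b : M := ((MulAut.conjNormal y (QuotientGroup.mk (s := D') (⟨p, hp⟩ : P)).out : P) : M)
      -- goal: x⁻¹ y p y⁻¹ x p⁻¹ ∈ D
      have h5 : x⁻¹ * y * p * (x⁻¹ * y)⁻¹ * p⁻¹ =
          (x⁻¹ * (b * d2 * (a * d1)⁻¹) * x) := by
        rw [← hx1, ← hy1]; group
      rw [h5]
      have h6 : b * d2 * (a * d1)⁻¹ ∈ D := by
        have h7 : b * d2 * (a * d1)⁻¹ = a * ((a⁻¹ * b) * (d2 * d1⁻¹)) * a⁻¹ := by group
        rw [h7]
        exact hDn a _ (D.mul_mem h4 (D.mul_mem hd2 (D.inv_mem hd1)))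
      simpa using hDn x⁻¹ _ h6
  -- elements of finite order
  have hfo : ∀ x : M, IsOfFinOrder x := by
    intro x
    have h1 : (Subgroup.zpowers x).FG := ⟨{x}, by simp [Subgroup.zpowers_eq_closure]⟩
    have h2 := hLF _ h1
    exact finite_zpowers.1 h2
  -- elements of N centralise D
  have hcD : ∀ x ∈ N, ∀ y ∈ D, x * y = y * x := by
    intro x hx
    let _ : CommGroup D := { (inferInstance : Group D) with
      mul_comm := fun a b => Subtype.ext (hDa a a.2 b b.2) }
    let α : D →* D :=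
      { toFun := fun y => ⟨x * y * x⁻¹, hDn x y y.2⟩
        map_one' := Subtype.ext (by simp)
        map_mul' := fun a b => Subtype.ext (by
          change x * ((a : M) * b) * x⁻¹ = (x * a * x⁻¹) * (x * b * x⁻¹)
          group) }
    have hα : ∀ (n : ℕ) (y : D), ((α^[n] y : D) : M) = x ^ n * y * (x ^ n)⁻¹ := by
      intro n
      induction n with
      | zero => intro y; simp
      | succ n ih =>
        intro y
        rw [Function.iterate_succ_apply']
        change x * ((α^[n] y : D) : M) * x⁻¹ = _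
        rw [ih, pow_succ']
        group
    obtain ⟨n, hn, hxn⟩ := isOfFinOrder_iff_pow_eq_one.1 (hfo x)
    obtain ⟨j, o, ho, hjo⟩ := Nat.exists_eq_two_pow_mul_odd hn.ne'
    have key := autC (A := D) (fun a => by
        obtain ⟨k, hk⟩ := hDE2 a a.2
        exact ⟨k, Subtype.ext (by simpa using hk)⟩)
      (fun a => by
        obtain ⟨y, hy, hya⟩ := hDd a a.2
        exact ⟨⟨y, hy⟩, Subtype.ext hya⟩) ho j α (fun a ha => by
        apply Subtype.ext
        change x * (a : M) * x⁻¹ = a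
        have h4 : (a : M) ^ 4 = 1 := by
          have := congrArg Subtype.val ha
          simpa using this
        rw [hx.1 a a.2 h4]; group) (fun a => by
        apply Subtype.ext
        rw [hα, ← hjo, hxn]; simp)
    intro y hy
    have h1 := congrArg Subtype.val (key ⟨y, hy⟩)
    have h2 : x * y * x⁻¹ = y := h1
    calc x * y = (x * y * x⁻¹) * x := by group
      _ = y * x := by rw [h2]
  -- N is a 2-group
  have hN2 : Is2 N := by
    intro x hx
    have hQ : Finite (P ⧸ D') := Subgroup.finite_quotient_of_finiteIndex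
    -- uniform exponent
    have hex : ∀ t : P ⧸ D', ∃ k : ℕ, (x * (t.out : M) * x⁻¹ * (t.out : M)⁻¹) ^ (2 ^ k : ℕ) = 1 :=
      fun t => hDE2 _ (hx.2 _ t.out.2)
    choose k hk using hex
    obtain ⟨K, hK⟩ := (Set.finite_range k).bddAbove
    have hK' : ∀ t : P ⧸ D', (x * (t.out : M) * x⁻¹ * (t.out : M)⁻¹) ^ (2 ^ K : ℕ) = 1 := by
      intro t
      have h1 : k t ≤ K := hK ⟨t, rfl⟩
      obtain ⟨j, hj⟩ := Nat.exists_eq_add_of_le h1
      rw [hj, pow_add, pow_mul, hk, one_pow]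
    have hd : ∀ p ∈ P, (x * p * x⁻¹ * p⁻¹) ^ (2 ^ K : ℕ) = 1 := by
      intro p hp
      obtain ⟨d, hd⟩ := QuotientGroup.mk_out_eq_mul D' (⟨p, hp⟩ : P)
      have h1 : ((QuotientGroup.mk (s := D') (⟨p, hp⟩ : P)).out : M) = p * ((d : P) : M) := by
        rw [hd]; rfl
      have h2 := hcD x hx ((d : P) : M) ((memD _).2 d.2)
      have h3 : x * p * x⁻¹ * p⁻¹ = x * (p * ((d : P) : M)) * x⁻¹ * (p * ((d : P) : M))⁻¹ := by
        calc x * p * x⁻¹ * p⁻¹ = x * p * (x⁻¹ * (x * ((d : P) : M)) * ((d : P) : M)⁻¹ * x⁻¹) * p⁻¹ := by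
              group
          _ = x * p * (x⁻¹ * (((d : P) : M) * x) * ((d : P) : M)⁻¹ * x⁻¹) * p⁻¹ := by rw [h2]
          _ = x * p * (x⁻¹ * ((d : P) : M) * (x * ((d : P) : M)⁻¹) * x⁻¹) * p⁻¹ := by group
          _ = x * (p * ((d : P) : M)) * x⁻¹ * (p * ((d : P) : M))⁻¹ := by
              have h4 : x⁻¹ * ((d : P) : M) = ((d : P) : M) * x⁻¹ := by
                rw [inv_mul_eq_iff_eq_mul, ← mul_assoc, h2, mul_assoc, mul_inv_cancel, mul_one]
              have h5 : x * ((d : P) : M)⁻¹ = ((d : P) : M)⁻¹ * x := by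
                rw [eq_inv_mul_iff_mul_eq, ← mul_assoc, ← h2, mul_assoc, mul_inv_cancel, mul_one]
              rw [h4, h5]
              group
      rw [h3, ← h1]
      exact hK' _
    have hpow : ∀ n : ℕ, ∀ p ∈ P, x ^ n * p * (x ^ n)⁻¹ = (x * p * x⁻¹ * p⁻¹) ^ n * p := by
      intro n p hp
      induction n with
      | zero => simp
      | succ n ih =>
        have hdD : x * p * x⁻¹ * p⁻¹ ∈ D := hx.2 p hp
        have hcm := hcD x hx _ (D.pow_mem hdD n)
        calc x ^ (n + 1) * p * (x ^ (n + 1))⁻¹ = x * (x ^ n * p * (x ^ n)⁻¹) * x⁻¹ := by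
              rw [pow_succ']; group
          _ = x * (x * p * x⁻¹ * p⁻¹) ^ n * p * x⁻¹ := by rw [ih]; group
          _ = (x * p * x⁻¹ * p⁻¹) ^ n * x * p * x⁻¹ := by rw [hcm]
          _ = (x * p * x⁻¹ * p⁻¹) ^ n * (x * p * x⁻¹ * p⁻¹) * p := by group
          _ = (x * p * x⁻¹ * p⁻¹) ^ (n + 1) * p := by rw [pow_succ]
    have hmem : x ^ (2 ^ K : ℕ) ∈ P := by
      apply hcent
      intro p hp
      have h1 := hpow (2 ^ K) p hp
      rw [hd p hp, one_mul] at h1
      calc x ^ (2 ^ K : ℕ) * p = (x ^ (2 ^ K : ℕ) * p * (x ^ (2 ^ K : ℕ))⁻¹) * x ^ (2 ^ K : ℕ) := by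
            group
        _ = p * x ^ (2 ^ K : ℕ) := by rw [h1]
    obtain ⟨j, hj⟩ := hP2 _ hmem
    exact ⟨K + j, by rw [pow_add, pow_mul]; exact hj⟩
  have hle : N ≤ P := hmax N (M1_normal hP hDn) hN2
  exact Subgroup.finiteIndex_of_le hle

end main

end Pool.Agent.Helper57.FinIdx
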