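import Pool.Agent.Helper7.Comm.Defs2

set_option autoImplicit false
set_option linter.unusedSectionVars false

/-! # Conjugation tools (handoff 44, lemma packet H7-S for MP_76db9d_al) -/

namespace Pool.Agent.Helper57.ConjTools

open Pool.Agent.Helper7.Comm Pool.Agent.Helper7.Comm.NC Pool.Agent.Helper57.Reduce

section ord

variable {X : Type*} {K : Type*} [Field K]

theorem ord_zero (n : ℕ) : Ord n (0 : NC X K) := fun _ _ => rfl

theorem ord_mono {m n : ℕ} (h : m ≤ n) {f : NC X K} (hf : Ord n f) : Ord m f :=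
  fun w hw => hf w (by omega)

theorem ord_add {n : ℕ} {f g : NC X K} (hf : Ord n f) (hg : Ord n g) : Ord n (f + g) :=
  fun w hw => by rw [NC.add_apply, hf w hw, hg w hw, add_zero]

theorem ord_neg {n : ℕ} {f : NC X K} (hf : Ord n f) : Ord n (-f) :=
  fun w hw => by rw [NC.neg_apply, hf w hw, neg_zero]

theorem ord_smul {n : ℕ} (c : K) {f : NC X K} (hf : Ord n f) : Ord n (c • f) :=
  fun w hw => by rw [NC.smul_apply, hf w hw, smul_zero]

theorem comp_smul' (n : ℕ) (c : K) (f : NC X K) : comp n (c • f) = c • comp n f := by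
  ext w; simp only [comp_apply, NC.smul_apply]; split_ifs <;> simp

theorem comp_of_ord {m n : ℕ} (h : m < n) {f : NC X K} (hf : Ord n f) : comp m f = 0 := by
  ext w
  rw [comp_apply]
  split_ifs with hw
  · exact hf w (by omega)
  · rfl

theorem ord_of_comp {n : ℕ} {f : NC X K} (hf : ∀ m < n, comp m f = 0) : Ord n f := by
  intro w hw
  have h := congrArg (fun g : NC X K => g w) (hf w.length hw)
  simp only [comp_apply, if_true] at h
  exact h

theorem ord_sub_comp {n : ℕ} {f L : NC X K} (hf : Ord n f) (hL : comp n f = L) :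
    Ord (n + 1) (f - L) := by
  intro w hw
  rw [NC.sub_apply, ← hL, comp_apply]
  split_ifs with h
  · rw [sub_self]
  · rw [hf w (by omega), sub_zero]

theorem ord_isHom_zero {m n : ℕ} (h : n < m) {f : NC X K} (hf : IsHom n f) (ho : Ord m f) :
    f = 0 := by
  ext w
  by_cases hw : w.length = n
  · exact ho w (by omega)
  · exact hf w hw

end ord

section S
variable {X : Type} [Fintype X] [DecidableEq X] {K : Type} [Field K]

omit [Fintype X] [DecidableEq X] in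
theorem cj_add (P : (NC X K)ˣ) (f g : NC X K) : cj P (f + g) = cj P f + cj P g := by
  unfold cj; rw [mul_add, add_mul]

omit [Fintype X] [DecidableEq X] in
theorem cj_sub (P : (NC X K)ˣ) (f g : NC X K) : cj P (f - g) = cj P f - cj P g := by
  unfold cj; rw [mul_sub, sub_mul]

omit [Fintype X] [DecidableEq X] in
theorem cj_neg (P : (NC X K)ˣ) (f : NC X K) : cj P (-f) = -cj P f := by
  unfold cj; rw [mul_neg, neg_mul]

omit [Fintype X] [DecidableEq X] in
theorem cj_smul (P : (NC X K)ˣ) (c : K) (f : NC X K) : cj P (c • f) = c • cj P f := by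
  unfold cj; rw [mul_smul_comm, smul_mul_assoc]

omit [Fintype X] [DecidableEq X] in
theorem cj_mul (P : (NC X K)ˣ) (f g : NC X K) : cj P (f * g) = cj P f * cj P g := by
  unfold cj
  calc ((P⁻¹ : (NC X K)ˣ) : NC X K) * (f * g) * (P : NC X K)
      = ((P⁻¹ : (NC X K)ˣ) : NC X K) * f * 1 * g * (P : NC X K) := by noncomm_ring
    _ = ((P⁻¹ : (NC X K)ˣ) : NC X K) * f * ((P : NC X K) * ((P⁻¹ : (NC X K)ˣ) : NC X K)) * g *
          (P : NC X K) := by rw [P.mul_inv]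
    _ = _ := by noncomm_ring

omit [Fintype X] [DecidableEq X] in
theorem cj_lie (P : (NC X K)ˣ) (f g : NC X K) : cj P ⁅f, g⁆ = ⁅cj P f, cj P g⁆ := by
  rw [Ring.lie_def, Ring.lie_def, cj_sub, cj_mul, cj_mul]

omit [Fintype X] [DecidableEq X] in
theorem cj_inv_cj (P : (NC X K)ˣ) (f : NC X K) : cj P⁻¹ (cj P f) = f := by
  unfold cj
  rw [inv_inv]
  calc (P : NC X K) * (((P⁻¹ : (NC X K)ˣ) : NC X K) * f * (P : NC X K)) *
        ((P⁻¹ : (NC X K)ˣ) : NC X K)
      = ((P : NC X K) * ((P⁻¹ : (NC X K)ˣ) : NC X K)) * f *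
        ((P : NC X K) * ((P⁻¹ : (NC X K)ˣ) : NC X K)) := by noncomm_ring
    _ = f := by rw [P.mul_inv]; noncomm_ring

omit [Fintype X] [DecidableEq X] in
theorem cj_cj_inv (P : (NC X K)ˣ) (f : NC X K) : cj P (cj P⁻¹ f) = f := by
  have := cj_inv_cj P⁻¹ f
  rwa [inv_inv] at this

/-- The inverse of a group-like unit is group-like. -/
theorem grouplike_inv (P : (NC X K)ˣ) (hP : Δ (P : NC X K) = T1 (P : NC X K) * T2 (P : NC X K)) :
    Δ ((P⁻¹ : (NC X K)ˣ) : NC X K) =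
      T1 ((P⁻¹ : (NC X K)ˣ) : NC X K) * T2 ((P⁻¹ : (NC X K)ˣ) : NC X K) := by
  have h1 : Δ ((P⁻¹ : (NC X K)ˣ) : NC X K) * Δ (P : NC X K) = 1 := by
    rw [← Δ_mul, P.inv_mul, Δ_one]
  have h2 : Δ (P : NC X K) *
      (T1 ((P⁻¹ : (NC X K)ˣ) : NC X K) * T2 ((P⁻¹ : (NC X K)ˣ) : NC X K)) = 1 := by
    rw [hP, T1_comm_T2]
    calc T2 (P : NC X K) * T1 (P : NC X K) *
          (T1 ((P⁻¹ : (NC X K)ˣ) : NC X K) * T2 ((P⁻¹ : (NC X K)ˣ) : NC X K))
        = T2 (P : NC X K) * (T1 (P : NC X K) * T1 ((P⁻¹ : (NC X K)ˣ) : NC X K)) *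
            T2 ((P⁻¹ : (NC X K)ˣ) : NC X K) := by noncomm_ring
      _ = 1 := by
        rw [← T1_mul, P.mul_inv, T1_one, mul_one, ← T2_mul, P.mul_inv, T2_one]
  exact left_inv_eq_right_inv h1 h2

theorem cj_isLie_one (P : (NC X K)ˣ) (hP : Δ (P : NC X K) = T1 (P : NC X K) * T2 (P : NC X K))
    {f : NC X K} (hf : IsLie f) : IsLie (cj P f) := by
  have hQ := grouplike_inv P hP
  set Q : NC X K := ((P⁻¹ : (NC X K)ˣ) : NC X K) with hQd
  have hQP : Q * (P : NC X K) = 1 := P.inv_mul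
  unfold IsLie at hf ⊢
  have e : cj P f = Q * f * (P : NC X K) := rfl
  rw [e, Δ_mul, Δ_mul, hf, hQ, hP]
  have c1 : T2 Q * T1 f = T1 f * T2 Q := (T1_comm_T2 f Q).symm
  have c2 : T2 Q * T1 (P : NC X K) = T1 (P : NC X K) * T2 Q := (T1_comm_T2 (P : NC X K) Q).symm
  have c3 : T2 f * T1 (P : NC X K) = T1 (P : NC X K) * T2 f := (T1_comm_T2 (P : NC X K) f).symm
  calc T1 Q * T2 Q * (T1 f + T2 f) * (T1 (P : NC X K) * T2 (P : NC X K))
      = T1 Q * (T2 Q * T1 f) * T1 (P : NC X K) * T2 (P : NC X K) +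
        T1 Q * T2 Q * (T2 f * T1 (P : NC X K)) * T2 (P : NC X K) := by noncomm_ring
    _ = T1 Q * T1 f * (T2 Q * T1 (P : NC X K)) * T2 (P : NC X K) +
        T1 Q * (T2 Q * T1 (P : NC X K)) * T2 f * T2 (P : NC X K) := by
          rw [c1, c3]; noncomm_ring
    _ = T1 Q * T1 f * T1 (P : NC X K) * (T2 Q * T2 (P : NC X K)) +
        (T1 Q * T1 (P : NC X K)) * (T2 Q * T2 f * T2 (P : NC X K)) := by
          rw [c2]; noncomm_ring
    _ = _ := by
          rw [← T2_mul Q (P : NC X K), ← T1_mul Q (P : NC X K), hQP, T1_one, T2_one, mul_one,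
            one_mul, T1_mul, T1_mul, T2_mul, T2_mul]

theorem cj_isLie (P : (NC X K)ˣ) (hP : Δ (P : NC X K) = T1 (P : NC X K) * T2 (P : NC X K)) {f : NC X K}
    (hf : IsLie f) : IsLie (cj P f) ∧ IsLie (cj P⁻¹ f) ∧ IsLie (cS P f) := by
  have h1 := cj_isLie_one P hP hf
  have h2 := cj_isLie_one P⁻¹ (grouplike_inv P hP) hf
  exact ⟨h1, h2, (h2.sub h1).smul _⟩

omit [Fintype X] [DecidableEq X] in
theorem cj_lead_aux (P : (NC X K)ˣ) (i : ℕ) (hi : 0 < i) (hP0 : (P : NC X K) [] = 1)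
    (hP : Ord i ((P : NC X K) - 1)) {n : ℕ} {f : NC X K}
    (hf : Ord n f) : Ord (n + i) (f - cj P f) ∧
      comp (n + i) (f - cj P f) = ⁅comp i (P : NC X K), comp n f⁆ := by
  have e : f - cj P f = ((P⁻¹ : (NC X K)ˣ) : NC X K) *
      (((P : NC X K) - 1) * f - f * ((P : NC X K) - 1)) := by
    have h := P.inv_mul
    calc f - cj P f = (1 : NC X K) * f - ((P⁻¹ : (NC X K)ˣ) : NC X K) * f * (P : NC X K) := by
          rw [one_mul]; rfl
      _ = (((P⁻¹ : (NC X K)ˣ) : NC X K) * (P : NC X K)) * f -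
          ((P⁻¹ : (NC X K)ˣ) : NC X K) * f * (P : NC X K) := by rw [h]
      _ = _ := by noncomm_ring
  have h0 : Ord 0 ((P⁻¹ : (NC X K)ˣ) : NC X K) := fun w hw => absurd hw (Nat.not_lt_zero _)
  have h1 : Ord (n + i) (((P : NC X K) - 1) * f - f * ((P : NC X K) - 1)) :=
    (by rw [add_comm]; exact hP.mul hf : Ord (n + i) (((P : NC X K) - 1) * f)).sub (hf.mul hP)
  constructor
  · rw [e]
    simpa using h0.mul h1
  · rw [e, comp_one_mul h1 (inv_nil P hP0), comp_sub, comp_mul_ord hf hP, add_comm n i,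
      comp_mul_ord hP hf, comp_sub_one hi, Ring.lie_def]

theorem cj_lead (P : (NC X K)ˣ) (i : ℕ) (hi : 0 < i) (hP0 : (P : NC X K) [] = 1) (hP : Ord i ((P : NC X K) - 1)) {n : ℕ} {f : NC X K}
    (hf : Ord n f) : Ord n (cj P f) ∧ Ord (n + i + 1) (f - cj P f - ⁅comp i (P : NC X K), comp n f⁆) := by
  obtain ⟨h1, h2⟩ := cj_lead_aux P i hi hP0 hP hf
  refine ⟨?_, ord_sub_comp h1 h2⟩
  have e : cj P f = f - (f - cj P f) := by abel
  rw [e]
  exact hf.sub (ord_mono (by omega) h1)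

omit [Fintype X] [DecidableEq X] in
theorem inv_hyp (P : (NC X K)ˣ) (i : ℕ) (hi : 0 < i) (hP0 : (P : NC X K) [] = 1)
    (hP : Ord i ((P : NC X K) - 1)) :
    ((P⁻¹ : (NC X K)ˣ) : NC X K) [] = 1 ∧ Ord i (((P⁻¹ : (NC X K)ˣ) : NC X K) - 1) ∧
      comp i ((P⁻¹ : (NC X K)ˣ) : NC X K) = -comp i (P : NC X K) := by
  have h1 := inv_nil P hP0
  exact ⟨h1, ord_sub_one (og_inv P hP0 (og_of_ord hP)) h1, comp_inv hi P hP0 (og_of_ord hP)⟩

theorem cS_lead [CharZero K] (P : (NC X K)ˣ) (i : ℕ) (hi : 0 < i) (hP0 : (P : NC X K) [] = 1) (hP : Ord i ((P : NC X K) - 1)) {n : ℕ} {f : NC X K}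
    (hf : Ord n f) : Ord (n + i) (cS P f) ∧ comp (n + i) (cS P f) = ⁅comp i (P : NC X K), comp n f⁆ := by
  obtain ⟨h1, h2⟩ := cj_lead_aux P i hi hP0 hP hf
  obtain ⟨q0, q1, q2⟩ := inv_hyp P i hi hP0 hP
  obtain ⟨h3, h4⟩ := cj_lead_aux P⁻¹ i hi q0 q1 hf
  have e : cS P f = (2 : K)⁻¹ • ((f - cj P f) - (f - cj P⁻¹ f)) := by
    unfold cS; congr 1; abel
  constructor
  · rw [e]
    exact ord_smul _ (h1.sub h3)
  · rw [e, comp_smul', comp_sub, h2, h4, q2, Ring.lie_def, Ring.lie_def]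
    have : comp i (P : NC X K) * comp n f - comp n f * comp i (P : NC X K) -
        (-comp i (P : NC X K) * comp n f - comp n f * -comp i (P : NC X K)) =
        (2 : K) • (comp i (P : NC X K) * comp n f - comp n f * comp i (P : NC X K)) := by
      rw [two_smul]; noncomm_ring
    rw [this, smul_smul, inv_mul_cancel₀ two_ne_zero, one_smul]

theorem Ex_add (P : (NC X K)ˣ) {i N : ℕ} {f g : NC X K} (hf : Ex P i N f) (hg : Ex P i N g) : Ex P i N (f + g) := by
  obtain ⟨V, hV1, hV2, hV3⟩ := hf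
  obtain ⟨W, hW1, hW2, hW3⟩ := hg
  refine ⟨V + W, hV1.add hW1, ord_add hV2 hW2, ?_⟩
  have e : f + g + (V + W - cj P (V + W)) = (f + (V - cj P V)) + (g + (W - cj P W)) := by
    rw [cj_add]; abel
  rw [e]
  exact ord_add hV3 hW3

theorem Ex_smul (P : (NC X K)ˣ) {i N : ℕ} {f : NC X K} (c : K) (hf : Ex P i N f) : Ex P i N (c • f) := by
  obtain ⟨V, hV1, hV2, hV3⟩ := hf
  refine ⟨c • V, hV1.smul c, ord_smul c hV2, ?_⟩
  have e : c • f + (c • V - cj P (c • V)) = c • (f + (V - cj P V)) := by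
    rw [cj_smul, smul_add, smul_sub]
  rw [e]
  exact ord_smul c hV3

theorem ex_zero (P : (NC X K)ˣ) (i N : ℕ) : Ex P i N (0 : NC X K) := by
  refine ⟨0, IsLie.zero, ord_zero _, ?_⟩
  have e : (0 : NC X K) + (0 - cj P 0) = 0 := by
    unfold cj; rw [mul_zero, zero_mul]; abel
  rw [e]
  exact ord_zero _

theorem ex_move [CharZero K] (P : (NC X K)ˣ) (i p N : ℕ) (hi : 0 < i) (hip : i ≤ p)
    (hP0 : (P : NC X K) [] = 1)
    (hP : Ord i ((P : NC X K) - 1)) (hPg : Δ (P : NC X K) = T1 (P : NC X K) * T2 (P : NC X K))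
    (f g : NC X K) (hf : IsLie f) (hg : IsLie g) (hfo : Ord p f) (hgo : Ord p g) :
    Ex P i N (⁅cS P f, g⁆ + ⁅f, cS P g⁆) := by
  obtain ⟨q0, q1, -⟩ := inv_hyp P i hi hP0 hP
  set w : NC X K := ⁅f, cj P g⁆ with hw
  set w' : NC X K := ⁅f, cj P⁻¹ g⁆ with hw'
  have wL : IsLie w := hf.lie (cj_isLie P hPg hg).1
  have w'L : IsLie w' := hf.lie (cj_isLie P hPg hg).2.1
  have og1 : Ord p (cj P g) := (cj_lead P i hi hP0 hP hgo).1
  have og2 : Ord p (cj P⁻¹ g) := (cj_lead P⁻¹ i hi q0 q1 hgo).1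
  have wo : Ord (p + p) w := by
    rw [hw, Ring.lie_def]
    exact (hfo.mul og1).sub (og1.mul hfo)
  have w'o : Ord (p + p) w' := by
    rw [hw', Ring.lie_def]
    exact (hfo.mul og2).sub (og2.mul hfo)
  have e1 : ⁅cj P⁻¹ f, g⁆ = cj P⁻¹ w := by
    rw [hw, cj_lie, cj_inv_cj]
  have e2 : ⁅cj P f, g⁆ = cj P w' := by
    rw [hw', cj_lie, cj_cj_inv]
  have e3 : ⁅cS P f, g⁆ + ⁅f, cS P g⁆ = (2 : K)⁻¹ • (cj P⁻¹ w - cj P w' + (w' - w)) := by
    have h1 : ⁅cS P f, g⁆ = (2 : K)⁻¹ • (⁅cj P⁻¹ f, g⁆ - ⁅cj P f, g⁆) := by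
      unfold cS
      rw [Ring.lie_def, Ring.lie_def, Ring.lie_def, smul_mul_assoc, mul_smul_comm, ← smul_sub]
      congr 1
      noncomm_ring
    have h2 : ⁅f, cS P g⁆ = (2 : K)⁻¹ • (w' - w) := by
      unfold cS
      rw [hw, hw', Ring.lie_def, Ring.lie_def, Ring.lie_def, smul_mul_assoc, mul_smul_comm,
        ← smul_sub]
      congr 1
      noncomm_ring
    rw [h1, h2, e1, e2, ← smul_add]
  rw [e3]
  refine Ex_smul P _ ?_
  refine ⟨-(cj P⁻¹ w + w'), ((cj_isLie P hPg wL).2.1.add w'L).neg, ?_, ?_⟩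
  · exact ord_neg (ord_add (ord_mono (by omega) (cj_lead P⁻¹ i hi q0 q1 wo).1)
      (ord_mono (by omega) w'o))
  · have e : cj P⁻¹ w - cj P w' + (w' - w) + (-(cj P⁻¹ w + w') - cj P (-(cj P⁻¹ w + w'))) = 0 := by
      rw [cj_neg, cj_add, cj_cj_inv]; abel
    rw [e]
    exact ord_zero _

theorem iter_prop [CharZero K] (P : (NC X K)ˣ) (i p : ℕ) (hi : 0 < i)
    (hP0 : (P : NC X K) [] = 1)
    (hP : Ord i ((P : NC X K) - 1)) (hPg : Δ (P : NC X K) = T1 (P : NC X K) * T2 (P : NC X K))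
    (a : NC X K) (ha : IsLie a) (hao : Ord p a) (m : ℕ) :
    IsLie ((cS P)^[m] a) ∧ Ord p ((cS P)^[m] a) := by
  induction m with
  | zero => exact ⟨ha, hao⟩
  | succ m ih =>
    rw [Function.iterate_succ_apply']
    exact ⟨(cj_isLie P hPg ih.1).2.2, ord_mono (by omega) (cS_lead P i hi hP0 hP ih.2).1⟩

theorem Ex_lie [CharZero K] (P : (NC X K)ˣ) (i p N : ℕ) (hi : 0 < i) (hip : i ≤ p) (hP0 : (P : NC X K) [] = 1)
    (hP : Ord i ((P : NC X K) - 1)) (hPg : Δ (P : NC X K) = T1 (P : NC X K) * T2 (P : NC X K))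
    (a : NC X K) (ha : IsLie a) (hao : Ord p a) (m n : ℕ) (hmn : Even (m + n)) :
    Ex P i N ⁅(cS P)^[m] a, (cS P)^[n] a⁆ := by
  have key : ∀ k m : ℕ, Ex P i N ⁅(cS P)^[m + 2 * k] a, (cS P)^[m] a⁆ := by
    intro k
    induction k with
    | zero =>
      intro m
      have : ⁅(cS P)^[m + 2 * 0] a, (cS P)^[m] a⁆ = 0 := by
        rw [mul_zero, add_zero, Ring.lie_def, sub_self]
      rw [this]
      exact ex_zero P i N
    | succ k ih =>
      intro m
      have h1 := ih (m + 1)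
      have ef : (cS P)^[m + 2 * (k + 1)] a = cS P ((cS P)^[m + 1 + 2 * k] a) := by
        rw [← Function.iterate_succ_apply' (cS P)]
        congr 2
        omega
      have eg : (cS P)^[m + 1] a = cS P ((cS P)^[m] a) := Function.iterate_succ_apply' (cS P) m a
      obtain ⟨f1, f2⟩ := iter_prop P i p hi hP0 hP hPg a ha hao (m + 1 + 2 * k)
      obtain ⟨g1, g2⟩ := iter_prop P i p hi hP0 hP hPg a ha hao m
      have h2 := ex_move P i p N hi hip hP0 hP hPg _ _ f1 g1 f2 g2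
      rw [← ef, ← eg] at h2
      have h3 := Ex_add P h2 (Ex_smul P (-1 : K) h1)
      have e : ⁅(cS P)^[m + 2 * (k + 1)] a, (cS P)^[m] a⁆ +
          ⁅(cS P)^[m + 1 + 2 * k] a, (cS P)^[m + 1] a⁆ +
          (-1 : K) • ⁅(cS P)^[m + 1 + 2 * k] a, (cS P)^[m + 1] a⁆ =
          ⁅(cS P)^[m + 2 * (k + 1)] a, (cS P)^[m] a⁆ := by
        rw [neg_one_smul]; abel
      rwa [e] at h3
  rcases le_total n m with h | h
  · obtain ⟨k, hk⟩ : ∃ k, m = n + 2 * k := by
      obtain ⟨r, hr⟩ := hmn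
      exact ⟨r - n, by omega⟩
    rw [hk]
    exact key k n
  · obtain ⟨k, hk⟩ : ∃ k, n = m + 2 * k := by
      obtain ⟨r, hr⟩ := hmn
      exact ⟨r - m, by omega⟩
    rw [hk]
    have h1 := Ex_smul P (-1 : K) (key k m)
    have e : (-1 : K) • ⁅(cS P)^[m + 2 * k] a, (cS P)^[m] a⁆ =
        ⁅(cS P)^[m] a, (cS P)^[m + 2 * k] a⁆ := by
      rw [neg_one_smul, Ring.lie_def, Ring.lie_def]; abel
    rwa [e] at h1

theorem Ex_lead [CharZero K] (P : (NC X K)ˣ) (i n N : ℕ) (hi : 0 < i) (hin : i < n) (hnN : n < N) (hP0 : (P : NC X K) [] = 1)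
    (hP : Ord i ((P : NC X K) - 1)) (hPi : comp i (P : NC X K) ≠ 0) (hPg : Δ (P : NC X K) = T1 (P : NC X K) * T2 (P : NC X K))
    {f : NC X K} (hf : Ex P i N f) (hfn : Ord n f) :
    ∃ V : NC X K, IsLie V ∧ IsHom (n - i) V ∧ comp n f + ⁅comp i (P : NC X K), V⁆ = 0 := by
  obtain ⟨V, hV1, hV2, hV3⟩ := hf
  have hxL : IsLie (comp i (P : NC X K)) := lead_lie hi hPg (og_of_ord hP)
  -- `V` has order `≥ n - i`
  have hVo : Ord (n - i) V := by
    apply ord_of_comp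
    intro d
    induction d using Nat.strong_induction_on with
    | _ d ih =>
      intro hd
      have hVd : Ord d V := ord_of_comp fun m hm => ih m hm (by omega)
      by_cases hdi : d ≤ i
      · exact comp_of_ord (by omega) hV2
      · obtain ⟨-, h2⟩ := cj_lead P i hi hP0 hP hVd
        have h3 : Ord (d + i + 1) (⁅comp i (P : NC X K), comp d V⁆) := by
          have e : ⁅comp i (P : NC X K), comp d V⁆ = (f + (V - cj P V)) - f -
              (V - cj P V - ⁅comp i (P : NC X K), comp d V⁆) := by abel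
          rw [e]
          exact ((ord_mono (by omega) hV3).sub (ord_mono (by omega) hfn)).sub h2
        have h4 : ⁅comp i (P : NC X K), comp d V⁆ = 0 :=
          ord_isHom_zero (n := i + d) (by omega) ((comp_isHom i _).lie (comp_isHom d _)) h3
        obtain ⟨c, hc⟩ := lie_comm hi (by omega : i ≤ d) (comp_isHom i _) hxL hPi
          (comp_isHom d _) (hV1.comp d) h4
        rw [hc]
        ext w
        by_cases hw : w.length = i
        · have h5 := congrArg (fun g : NC X K => g w) hc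
          rw [← hc]
          rw [comp_apply, if_neg (by omega)]
          rfl
        · rw [NC.smul_apply, comp_apply, if_neg hw, smul_zero]
          rfl
  obtain ⟨h1, h2⟩ := cj_lead_aux P i hi hP0 hP hVo
  refine ⟨comp (n - i) V, hV1.comp _, comp_isHom _ _, ?_⟩
  have e : n - i + i = n := by omega
  rw [e] at h2
  rw [← h2, ← comp_add]
  exact comp_of_ord hnN hV3

end S

end Pool.Agent.Helper57.ConjTools
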