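import Pool.Agent.Helper57.ReduceB

set_option autoImplicit false

/-! # Reduction of leading terms (handoff H7-F) -/

namespace Pool.Agent.Helper57.Reduce

open Pool.Agent.Helper7.Comm Pool.Agent.Helper7.Comm.NC
open scoped commutatorElement

section nat

variable {X : Type*} [Fintype X]

/-- The natural number `(c!)² ‖f_i‖²`. -/
def nn (c i : ℕ) (f : NC X ℚ) : ℕ := ∑ v : Fin i → X, (⌊(c.factorial : ℚ) * f (List.ofFn v)⌋).natAbs ^ 2

theorem nn_eq {c i : ℕ} (hic : i ≤ c) {f : NC X ℚ}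
    (hf : ∀ w : List X, ∃ z : ℤ, ((w.length.factorial : ℕ) : ℚ) * f w = z) :
    ((nn c i f : ℕ) : ℚ) = (c.factorial : ℚ) ^ 2 * nrm i f := by
  unfold nn nrm
  push_cast
  rw [Finset.mul_sum]
  refine Finset.sum_congr rfl fun v _ => ?_
  obtain ⟨z, hz⟩ := hf (List.ofFn v)
  rw [List.length_ofFn] at hz
  obtain ⟨k, hk⟩ : i.factorial ∣ c.factorial := Nat.factorial_dvd_factorial hic
  have e : (c.factorial : ℚ) * f (List.ofFn v) = ((k * z : ℤ) : ℚ) := by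
    rw [hk]
    push_cast
    rw [← hz]
    ring
  rw [e, Int.floor_intCast, ← mul_pow, e]
  rw [Nat.cast_natAbs, Int.cast_abs, sq_abs]

end nat

variable {r : ℕ} (E : FreeGroup (Fin r) →* (NC (Fin r) ℚ)ˣ)

/-- Admissible quadruples for a group element `g`. -/
structure Adm (g x y : FreeGroup (Fin r)) (i j : ℕ) : Prop where
  hi : 0 < i
  hj : 0 < j
  hc : ⁅x, y⁆ = g
  ox : OG i ((E x : (NC (Fin r) ℚ)ˣ) : NC (Fin r) ℚ)
  oy : OG j ((E y : (NC (Fin r) ℚ)ˣ) : NC (Fin r) ℚ)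

/-- the series of a group element -/
abbrev ser (g : FreeGroup (Fin r)) : NC (Fin r) ℚ := ((E g : (NC (Fin r) ℚ)ˣ) : NC (Fin r) ℚ)

variable {E} (hnil : ∀ g, ser E g [] = 1)

include hnil in
theorem Adm.comm {g x y : FreeGroup (Fin r)} {i j : ℕ} (h : Adm E g x y i j) :
    OG (i + j) (ser E g) ∧ comp (i + j) (ser E g) = ⁅comp i (ser E x), comp j (ser E y)⁆ := by
  have := og_comm h.hi h.hj (E x) (E y) (hnil x) (hnil y) h.ox h.oy
  rwa [← map_commutatorElement, h.hc] at this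

include hnil in
theorem Adm.le {g x y : FreeGroup (Fin r)} {i j c : ℕ} (h : Adm E g x y i j)
    (hg : ∃ w : List (Fin r), w ≠ [] ∧ w.length ≤ c ∧ ser E g w ≠ 0) : i + j ≤ c := by
  obtain ⟨w, hw, hwc, hw0⟩ := hg
  by_contra hcon
  exact hw0 ((h.comm hnil).1 w hw (by omega))

include hnil in
/-- Swapping the two entries. -/
theorem Adm.swap {g x y : FreeGroup (Fin r)} {i j : ℕ} (h : Adm E g x y i j) :
    Adm E g (x * y * x⁻¹) x⁻¹ j i ∧ nrm j (ser E (x * y * x⁻¹)) = nrm j (ser E y) ∧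
      nrm i (ser E x⁻¹) = nrm i (ser E x) := by
  have h1 := og_conj (E x) (hnil x) (hnil y) h.oy
  have e1 : ser E (x * y * x⁻¹) =
      (E x : NC (Fin r) ℚ) * (E y : NC (Fin r) ℚ) * (((E x)⁻¹ : (NC (Fin r) ℚ)ˣ) : NC (Fin r) ℚ) := by
    simp [ser]
  have e2 : ser E x⁻¹ = (((E x)⁻¹ : (NC (Fin r) ℚ)ˣ) : NC (Fin r) ℚ) := by
    simp [ser]
  refine ⟨⟨h.hj, h.hi, ?_, ?_, ?_⟩, ?_, ?_⟩
  · rw [← h.hc, commutatorElement_def, commutatorElement_def]
    group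
  · change OG j (ser E (x * y * x⁻¹))
    rw [e1]
    exact h1.1
  · change OG i (ser E x⁻¹)
    rw [e2]
    exact og_inv (E x) (hnil x) h.ox
  · rw [← nrm_comp j (ser E (x * y * x⁻¹)), e1, h1.2 h.hj, nrm_comp]
  · rw [← nrm_comp i (ser E x⁻¹), e2, comp_inv h.hi (E x) (hnil x) h.ox, nrm_neg, nrm_comp]

theorem ser_mul (x y : FreeGroup (Fin r)) : ser E (x * y) = ser E x * ser E y := by
  simp [ser]

include hnil in
theorem ser_inv_comp {x : FreeGroup (Fin r)} {i : ℕ} (hi : 0 < i) (ox : OG i (ser E x)) :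
    OG i (ser E x⁻¹) ∧ comp i (ser E x⁻¹) = -comp i (ser E x) := by
  have e2 : ser E x⁻¹ = (((E x)⁻¹ : (NC (Fin r) ℚ)ˣ) : NC (Fin r) ℚ) := by
    simp [ser]
  rw [e2]
  exact ⟨og_inv (E x) (hnil x) ox, comp_inv hi (E x) (hnil x) ox⟩

include hnil in
/-- Moves on the second entry. -/
theorem Adm.right {g x y : FreeGroup (Fin r)} {i : ℕ} (h : Adm E g x y i i) :
    (Adm E g x (y * x) i i ∧ nrm i (ser E (y * x)) =
      nrm i (ser E y) + 2 * ip i (ser E x) (ser E y) + nrm i (ser E x)) ∧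
    (Adm E g x (y * x⁻¹) i i ∧ nrm i (ser E (y * x⁻¹)) =
      nrm i (ser E y) - 2 * ip i (ser E x) (ser E y) + nrm i (ser E x)) := by
  have hinv := ser_inv_comp hnil h.hi h.ox
  have ipc : ip i (comp i (ser E y)) (comp i (ser E x)) = ip i (ser E x) (ser E y) := by
    rw [ip_comm]
    unfold ip
    refine Finset.sum_congr rfl fun v _ => ?_
    rw [comp_apply, comp_apply, if_pos (by simp), if_pos (by simp)]
  refine ⟨⟨⟨h.hi, h.hi, ?_, h.ox, ?_⟩, ?_⟩, ⟨⟨h.hi, h.hi, ?_, h.ox, ?_⟩, ?_⟩⟩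
  · rw [← h.hc, commutatorElement_def, commutatorElement_def]
    group
  · change OG i (ser E (y * x))
    rw [ser_mul]
    exact og_mul h.oy h.ox (hnil y) (hnil x)
  · rw [← nrm_comp i (ser E (y * x)), ser_mul, comp_mul' h.hi h.oy (hnil y) (hnil x), nrm_add,
      ipc, nrm_comp, nrm_comp]
  · rw [← h.hc, commutatorElement_def, commutatorElement_def]
    group
  · change OG i (ser E (y * x⁻¹))
    rw [ser_mul]
    exact og_mul h.oy hinv.1 (hnil y) (hnil x⁻¹)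
  · rw [← nrm_comp i (ser E (y * x⁻¹)), ser_mul, comp_mul' h.hi h.oy (hnil y) (hnil x⁻¹),
      hinv.2, ← sub_eq_add_neg, nrm_sub, ipc, nrm_comp, nrm_comp]

include hnil in
/-- Moves on the first entry. -/
theorem Adm.left {g x y : FreeGroup (Fin r)} {i : ℕ} (h : Adm E g x y i i) :
    (Adm E g (x * y) y i i ∧ nrm i (ser E (x * y)) =
      nrm i (ser E x) + 2 * ip i (ser E x) (ser E y) + nrm i (ser E y)) ∧
    (Adm E g (x * y⁻¹) y i i ∧ nrm i (ser E (x * y⁻¹)) =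
      nrm i (ser E x) - 2 * ip i (ser E x) (ser E y) + nrm i (ser E y)) := by
  have hinv := ser_inv_comp hnil h.hi h.oy
  have ipc : ip i (comp i (ser E x)) (comp i (ser E y)) = ip i (ser E x) (ser E y) := by
    unfold ip
    refine Finset.sum_congr rfl fun v _ => ?_
    rw [comp_apply, comp_apply, if_pos (by simp), if_pos (by simp)]
  refine ⟨⟨⟨h.hi, h.hi, ?_, ?_, h.oy⟩, ?_⟩, ⟨⟨h.hi, h.hi, ?_, ?_, h.oy⟩, ?_⟩⟩
  · rw [← h.hc, commutatorElement_def, commutatorElement_def]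
    group
  · change OG i (ser E (x * y))
    rw [ser_mul]
    exact og_mul h.ox h.oy (hnil x) (hnil y)
  · rw [← nrm_comp i (ser E (x * y)), ser_mul, comp_mul' h.hi h.ox (hnil x) (hnil y), nrm_add,
      ipc, nrm_comp, nrm_comp]
  · rw [← h.hc, commutatorElement_def, commutatorElement_def]
    group
  · change OG i (ser E (x * y⁻¹))
    rw [ser_mul]
    exact og_mul h.ox hinv.1 (hnil x) (hnil y⁻¹)
  · rw [← nrm_comp i (ser E (x * y⁻¹)), ser_mul, comp_mul' h.hi h.ox (hnil x) (hnil y⁻¹),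
      hinv.2, ← sub_eq_add_neg, nrm_sub, ipc, nrm_comp, nrm_comp]

include hnil in
/-- A quadruple with maximal orders and minimal norms. -/
theorem exists_best {c : ℕ} {g x y : FreeGroup (Fin r)} (hxy : ⁅x, y⁆ = g)
    (hint : ∀ g (w : List (Fin r)), ∃ z : ℤ, ((w.length.factorial : ℕ) : ℚ) * ser E g w = z)
    (hg : ∃ w : List (Fin r), w ≠ [] ∧ w.length ≤ c ∧ ser E g w ≠ 0) :
    ∃ x' y' i j, i ≤ j ∧ Adm E g x' y' i j ∧ (∀ x₁ y₁ i₁ j₁, Adm E g x₁ y₁ i₁ j₁ → i₁ + j₁ ≤ i + j) ∧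
      (∀ x₁ y₁ i₁ j₁, Adm E g x₁ y₁ i₁ j₁ → i₁ + j₁ = i + j →
        nrm i (ser E x') + nrm j (ser E y') ≤ nrm i₁ (ser E x₁) + nrm j₁ (ser E y₁)) := by
  classical
  -- maximal total order
  let T : ℕ → Prop := fun n => ∃ x₁ y₁ i₁ j₁, Adm E g x₁ y₁ i₁ j₁ ∧ i₁ + j₁ = n
  have hT2 : T 2 := ⟨x, y, 1, 1, ⟨one_pos, one_pos, hxy, OG.one' _, OG.one' _⟩, rfl⟩
  have hTc : ∀ n, T n → n ≤ c := by
    rintro n ⟨x₁, y₁, i₁, j₁, h, rfl⟩
    exact h.le hnil hg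
  set n := Nat.findGreatest T c with hn
  have hTn : T n := Nat.findGreatest_spec (P := T) (hTc 2 hT2) hT2
  have hmax : ∀ m, T m → m ≤ n := fun m hm => Nat.le_findGreatest (hTc m hm) hm
  -- minimal norm
  let Q : ℕ → Prop := fun k => ∃ x₁ y₁ i₁ j₁, Adm E g x₁ y₁ i₁ j₁ ∧ i₁ + j₁ = n ∧
    nn c i₁ (ser E x₁) + nn c j₁ (ser E y₁) = k
  have hQ : ∃ k, Q k := by
    obtain ⟨x₁, y₁, i₁, j₁, h, h2⟩ := hTn
    exact ⟨_, x₁, y₁, i₁, j₁, h, h2, rfl⟩
  obtain ⟨x₀, y₀, i₀, j₀, h0, hs0, hk0⟩ := Nat.find_spec hQ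
  have hcpos : (0 : ℚ) < (c.factorial : ℚ) ^ 2 := by positivity
  have hmin : ∀ x₁ y₁ i₁ j₁, Adm E g x₁ y₁ i₁ j₁ → i₁ + j₁ = n →
      nrm i₀ (ser E x₀) + nrm j₀ (ser E y₀) ≤ nrm i₁ (ser E x₁) + nrm j₁ (ser E y₁) := by
    intro x₁ y₁ i₁ j₁ h h2
    have h3 : Nat.find hQ ≤ nn c i₁ (ser E x₁) + nn c j₁ (ser E y₁) :=
      Nat.find_min' hQ ⟨x₁, y₁, i₁, j₁, h, h2, rfl⟩
    rw [← hk0] at h3
    have h4 : ((nn c i₀ (ser E x₀) + nn c j₀ (ser E y₀) : ℕ) : ℚ) ≤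
        ((nn c i₁ (ser E x₁) + nn c j₁ (ser E y₁) : ℕ) : ℚ) := by exact_mod_cast h3
    have b0 := h0.le hnil hg
    have b1 := h.le hnil hg
    push_cast at h4
    rw [nn_eq (by omega) (hint x₀), nn_eq (by omega) (hint y₀), nn_eq (by omega) (hint x₁),
      nn_eq (by omega) (hint y₁), ← mul_add, ← mul_add] at h4
    exact le_of_mul_le_mul_left h4 hcpos
  rcases le_total i₀ j₀ with hle | hle
  · exact ⟨x₀, y₀, i₀, j₀, hle, h0, fun x₁ y₁ i₁ j₁ h => by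
      rw [hs0]; exact hmax _ ⟨x₁, y₁, i₁, j₁, h, rfl⟩,
      fun x₁ y₁ i₁ j₁ h h2 => hmin _ _ _ _ h (by omega)⟩
  · obtain ⟨h1, h2, h3⟩ := h0.swap hnil
    refine ⟨_, _, j₀, i₀, hle, h1, fun x₁ y₁ i₁ j₁ h => ?_, fun x₁ y₁ i₁ j₁ h h4 => ?_⟩
    · have := hmax _ ⟨x₁, y₁, i₁, j₁, h, rfl⟩
      omega
    · rw [h2, h3, add_comm]
      exact hmin _ _ _ _ h (by omega)

include hnil in
theorem lead_ne_zero_left {g x y : FreeGroup (Fin r)} {i j : ℕ} (h : Adm E g x y i j)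
    (hmax : ∀ x₁ y₁ i₁ j₁, Adm E g x₁ y₁ i₁ j₁ → i₁ + j₁ ≤ i + j) : comp i (ser E x) ≠ 0 := by
  intro h0
  have : Adm E g x y (i + 1) j := by
    refine ⟨by omega, h.hj, h.hc, ?_, h.oy⟩
    intro w hw hl
    rcases Nat.lt_or_ge w.length i with h1 | h1
    · exact h.ox w hw h1
    · have := congrArg (fun f : NC (Fin r) ℚ => f w) h0
      simp only [comp_apply, NC.zero_apply] at this
      rwa [if_pos (by omega)] at this
  have := hmax _ _ _ _ this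
  omega

include hnil in
theorem lead_ne_zero_right {g x y : FreeGroup (Fin r)} {i j : ℕ} (h : Adm E g x y i j)
    (hmax : ∀ x₁ y₁ i₁ j₁, Adm E g x₁ y₁ i₁ j₁ → i₁ + j₁ ≤ i + j) : comp j (ser E y) ≠ 0 := by
  intro h0
  have : Adm E g x y i (j + 1) := by
    refine ⟨h.hi, by omega, h.hc, h.ox, ?_⟩
    intro w hw hl
    rcases Nat.lt_or_ge w.length j with h1 | h1
    · exact h.oy w hw h1
    · have := congrArg (fun f : NC (Fin r) ℚ => f w) h0
      simp only [comp_apply, NC.zero_apply] at this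
      rwa [if_pos (by omega)] at this
  have := hmax _ _ _ _ this
  omega

theorem ip_comp {X : Type*} [Fintype X] (i : ℕ) (f g : NC X ℚ) :
    ip i (comp i f) (comp i g) = ip i f g := by
  unfold ip
  refine Finset.sum_congr rfl fun v _ => ?_
  rw [comp_apply, comp_apply, if_pos (by simp), if_pos (by simp)]

theorem ip_of_ne {X : Type*} [Fintype X] {i j : ℕ} (hij : i ≠ j) {f g : NC X ℚ} (hg : IsHom j g) :
    ip i f g = 0 := by
  unfold ip
  refine Finset.sum_eq_zero fun v _ => ?_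
  rw [hg _ (by simpa using hij), mul_zero]

theorem reduce (r c : ℕ) (E : FreeGroup (Fin r) →* (NC (Fin r) ℚ)ˣ)
    (hnil : ∀ g, ((E g : (NC (Fin r) ℚ)ˣ) : NC (Fin r) ℚ) [] = 1)
    (hgl : ∀ g, Δ ((E g : (NC (Fin r) ℚ)ˣ) : NC (Fin r) ℚ) = T1 ((E g : (NC (Fin r) ℚ)ˣ) : NC (Fin r) ℚ) * T2 ((E g : (NC (Fin r) ℚ)ˣ) : NC (Fin r) ℚ))
    (hint : ∀ g (w : List (Fin r)), ∃ z : ℤ, ((w.length.factorial : ℕ) : ℚ) * ((E g : (NC (Fin r) ℚ)ˣ) : NC (Fin r) ℚ) w = z) :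
    ∃ C : ℚ, ∀ x y : FreeGroup (Fin r),
      (∃ w : List (Fin r), w ≠ [] ∧ w.length ≤ c ∧ ((E ⁅x, y⁆ : (NC (Fin r) ℚ)ˣ) : NC (Fin r) ℚ) w ≠ 0) →
      ∃ (x' y' : FreeGroup (Fin r)) (i j : ℕ), 0 < i ∧ i ≤ j ∧ i + j ≤ c ∧ ⁅x', y'⁆ = ⁅x, y⁆ ∧
        (∀ w : List (Fin r), w ≠ [] → w.length < i → ((E x' : (NC (Fin r) ℚ)ˣ) : NC (Fin r) ℚ) w = 0) ∧
        (∀ w : List (Fin r), w ≠ [] → w.length < j → ((E y' : (NC (Fin r) ℚ)ˣ) : NC (Fin r) ℚ) w = 0) ∧
        ⁅comp i ((E x' : (NC (Fin r) ℚ)ˣ) : NC (Fin r) ℚ), comp j ((E y' : (NC (Fin r) ℚ)ˣ) : NC (Fin r) ℚ)⁆ ≠ 0 ∧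
        ∀ w w' : List (Fin r), w.length = i → w'.length = j → ∃ v : List (Fin r), v.length = i + j ∧
          |((E x' : (NC (Fin r) ℚ)ˣ) : NC (Fin r) ℚ) w| * |((E y' : (NC (Fin r) ℚ)ˣ) : NC (Fin r) ℚ) w'| ≤
            C * |((E ⁅x, y⁆ : (NC (Fin r) ℚ)ˣ) : NC (Fin r) ℚ) v| := by
  choose Cf hCf0 hCf using fun i j => bracket_bound (X := Fin r) i j
  refine ⟨∑ i ∈ Finset.range (c + 1), ∑ j ∈ Finset.range (c + 1), Cf i j, fun x y hg => ?_⟩
  obtain ⟨x', y', i, j, hij, hA, hmax, hmin⟩ := exists_best (E := E) hnil rfl hint hg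
  have hle := hA.le hnil hg
  obtain ⟨hog, hcomp⟩ := hA.comm hnil
  have hx0 := lead_ne_zero_left hnil hA hmax
  have hy0 := lead_ne_zero_right hnil hA hmax
  have hxL : IsLie (comp i (ser E x')) := lead_lie hA.hi (hgl x') hA.ox
  have hyL : IsLie (comp j (ser E y')) := lead_lie hA.hj (hgl y') hA.oy
  have hxH : IsHom i (comp i (ser E x')) := comp_isHom _ _
  have hyH : IsHom j (comp j (ser E y')) := comp_isHom _ _
  -- the two inner product bounds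
  have hip : 2 * |ip i (comp i (ser E x')) (comp j (ser E y'))| ≤ nrm i (comp i (ser E x')) ∧
      2 * |ip i (comp i (ser E x')) (comp j (ser E y'))| ≤ nrm j (comp j (ser E y')) := by
    by_cases hne : i = j
    · subst hne
      rw [ip_comp, nrm_comp, nrm_comp]
      obtain ⟨⟨a1, n1⟩, ⟨a2, n2⟩⟩ := hA.right hnil
      obtain ⟨⟨a3, n3⟩, ⟨a4, n4⟩⟩ := hA.left hnil
      have m1 := hmin _ _ _ _ a1 rfl
      have m2 := hmin _ _ _ _ a2 rfl
      have m3 := hmin _ _ _ _ a3 rfl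
      have m4 := hmin _ _ _ _ a4 rfl
      rw [n1] at m1
      rw [n2] at m2
      rw [n3] at m3
      rw [n4] at m4
      constructor
      · rcases abs_cases (ip i (ser E x') (ser E y')) with ⟨h, _⟩ | ⟨h, _⟩ <;> rw [h] <;> linarith
      · rcases abs_cases (ip i (ser E x') (ser E y')) with ⟨h, _⟩ | ⟨h, _⟩ <;> rw [h] <;> linarith
    · rw [ip_of_ne hne hyH, abs_zero, mul_zero]
      exact ⟨nrm_nonneg _ _, nrm_nonneg _ _⟩
  have hbr : ⁅comp i (ser E x'), comp j (ser E y')⁆ ≠ 0 := by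
    intro h0
    obtain ⟨k, hk⟩ := lie_comm hA.hi hij hxH hxL hx0 hyH hyL h0
    rcases hij.lt_or_eq with hlt | rfl
    · apply hy0
      ext w
      by_cases hw : w.length = j
      · rw [hk]
        exact hxH.smul k w (by omega)
      · exact hyH w hw
    · have hN : 0 < nrm i (comp i (ser E x')) := by
        rcases (nrm_nonneg i (comp i (ser E x'))).eq_or_lt with h | h
        · exact absurd (eq_zero_of_nrm hxH h.symm) hx0
        · exact h
      obtain ⟨b1, b2⟩ := hip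
      rw [hk, ip_smul_right, ip_self, abs_mul, abs_of_pos hN] at b1 b2
      rw [nrm_smul, ← sq_abs] at b2
      have hk0 : 0 < |k| := by
        rw [abs_pos]
        rintro rfl
        exact hy0 (by rw [hk, zero_smul])
      have c1 : 2 * |k| ≤ 1 := by
        by_contra hcon
        push Not at hcon
        nlinarith
      have c2 : 2 ≤ |k| := by
        by_contra hcon
        push Not at hcon
        have : 0 < |k| * nrm i (comp i (ser E x')) := mul_pos hk0 hN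
        nlinarith
      linarith
  refine ⟨x', y', i, j, hA.hi, hij, hle, hA.hc, hA.ox, hA.oy, hbr, fun w w' hw hw' => ?_⟩
  obtain ⟨v, hv, hv2⟩ := hCf i j hA.hi hij _ _ hxH hyH hxL hyL hip.1 hip.2 w w' hw hw'
  refine ⟨v, hv, ?_⟩
  rw [← hcomp] at hv2
  simp only [comp_apply, if_pos hw, if_pos hw', if_pos hv] at hv2
  refine hv2.trans (mul_le_mul_of_nonneg_right ?_ (abs_nonneg _))
  calc Cf i j ≤ ∑ j ∈ Finset.range (c + 1), Cf i j :=
        Finset.single_le_sum (f := fun j => Cf i j) (fun _ _ => hCf0 _ _)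
          (Finset.mem_range.mpr (by omega))
    _ ≤ _ := Finset.single_le_sum (f := fun i => ∑ j ∈ Finset.range (c + 1), Cf i j)
          (fun _ _ => Finset.sum_nonneg fun _ _ => hCf0 _ _) (Finset.mem_range.mpr (by omega))

end Pool.Agent.Helper57.Reduce
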