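import Pool.Agent.Helper7.Comm.Brackets

set_option autoImplicit false

/-! # Leading terms of commutators (handoff H7-F, part 1) -/

namespace Pool.Agent.Helper57.Reduce

open Pool.Agent.Helper7.Comm Pool.Agent.Helper7.Comm.NC
open scoped commutatorElement

variable {X : Type*} {K : Type*}

/-- `f` has no nonconstant terms of degree `< n`. -/
def OG [Zero K] (n : ℕ) (f : NC X K) : Prop := ∀ w : List X, w ≠ [] → w.length < n → f w = 0

/-- `f` has no terms of degree `< n`. -/
def Ord [Zero K] (n : ℕ) (f : NC X K) : Prop := ∀ w : List X, w.length < n → f w = 0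

theorem OG.mono [Zero K] {m n : ℕ} (h : m ≤ n) {f : NC X K} (hf : OG n f) : OG m f :=
  fun w hw hl => hf w hw (by omega)

theorem OG.one' [Zero K] (f : NC X K) : OG 1 f := by
  intro w hw hl
  have : w.length = 0 := by omega
  exact absurd (List.length_eq_zero_iff.mp this) hw

section ring
variable [Ring K]

theorem ord_sub_one {n : ℕ} {f : NC X K} (hf : OG n f) (h1 : f [] = 1) : Ord n (f - 1) := by
  intro w hw
  cases w with
  | nil => simp [h1]
  | cons a w => simp [hf (a :: w) (by simp) hw]

theorem og_of_ord {n : ℕ} {f : NC X K} (hf : Ord n (f - 1)) : OG n f := by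
  intro w hw hl
  obtain ⟨a, w, rfl⟩ := List.exists_cons_of_ne_nil hw
  have := hf (a :: w) hl
  simpa using this

theorem comp_sub_one {n : ℕ} (hn : 0 < n) (f : NC X K) : comp n (f - 1) = comp n f := by
  rw [comp_sub]
  have : comp n (1 : NC X K) = 0 := by
    ext w
    rw [comp_apply]
    split_ifs with h
    · cases w with
      | nil => simp at h; omega
      | cons a w => rfl
    · rfl
  rw [this, sub_zero]

theorem Ord.mul {m n : ℕ} {f g : NC X K} (hf : Ord m f) (hg : Ord n g) : Ord (m + n) (f * g) := by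
  intro w hw
  rw [mul_apply]
  refine Finset.sum_eq_zero fun i hi => ?_
  simp only [Finset.mem_range] at hi
  by_cases h : i < m
  · rw [hf _ (by simp; omega), zero_mul]
  · rw [hg (w.drop i) (by simp; omega), mul_zero]

theorem comp_mul_ord {m n : ℕ} {f g : NC X K} (hf : Ord m f) (hg : Ord n g) :
    comp (m + n) (f * g) = comp m f * comp n g := by
  ext w
  rw [comp_apply]
  split_ifs with h
  · rw [← List.take_append_drop m w, mul_append_left (comp_isHom m f) (by simp; omega),
      comp_apply, comp_apply, if_pos (by simp; omega), if_pos (by simp; omega),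
      mul_apply, Finset.sum_eq_single m]
    · have e : (List.take m w).length = m := by simp; omega
      rw [List.take_append_of_le_length (by omega), List.take_take, min_self]
      congr 2
      rw [List.take_append_drop]
    · intro i hi him
      simp only [Finset.mem_range, List.length_append, List.length_take, List.length_drop] at hi
      by_cases hlt : i < m
      · rw [hf _ (by simp; omega), zero_mul]
      · rw [hg (List.drop i _) (by simp; omega), mul_zero]
    · intro h'
      exfalso
      apply h'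
      simp only [Finset.mem_range, List.length_append, List.length_take, List.length_drop]
      omega
  · exact ((comp_isHom m f).mul (comp_isHom n g) w h).symm

theorem Ord.sub {n : ℕ} {f g : NC X K} (hf : Ord n f) (hg : Ord n g) : Ord n (f - g) :=
  fun w hw => by rw [NC.sub_apply, hf w hw, hg w hw, sub_zero]

theorem Ord.mul_unit {n : ℕ} {f g : NC X K} (hf : Ord n f) : Ord n (f * g) := by
  have h0 : Ord 0 g := fun w hw => absurd hw (Nat.not_lt_zero _)
  simpa using hf.mul h0

theorem comp_mul_one {n : ℕ} {f g : NC X K} (hf : Ord n f) (hg : g [] = 1) :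
    comp n (f * g) = comp n f := by
  have h0 : Ord 0 g := fun w hw => absurd hw (Nat.not_lt_zero _)
  have := comp_mul_ord hf h0
  rw [add_zero] at this
  rw [this]
  have : comp 0 g = 1 := by
    ext w
    rw [comp_apply]
    cases w with
    | nil => simp [hg]
    | cons a w => simp
  rw [this, mul_one]

theorem comp_one_mul {n : ℕ} {f g : NC X K} (hf : Ord n f) (hg : g [] = 1) :
    comp n (g * f) = comp n f := by
  have h0 : Ord 0 g := fun w hw => absurd hw (Nat.not_lt_zero _)
  have := comp_mul_ord h0 hf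
  rw [zero_add] at this
  rw [this]
  have : comp 0 g = 1 := by
    ext w
    rw [comp_apply]
    cases w with
    | nil => simp [hg]
    | cons a w => simp
  rw [this, one_mul]

end ring

section unit
variable [Ring K]

/-- Orders and leading terms of products. -/
theorem og_mul {n : ℕ} {f g : NC X K} (hf : OG n f) (hg : OG n g) (f1 : f [] = 1)
    (g1 : g [] = 1) : OG n (f * g) := by
  apply og_of_ord
  have : f * g - 1 = (f - 1) * g + (g - 1) := by noncomm_ring
  rw [this]
  intro w hw
  rw [NC.add_apply, (ord_sub_one hf f1).mul_unit w hw, ord_sub_one hg g1 w hw, add_zero]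

theorem comp_mul' {n : ℕ} (hn : 0 < n) {f g : NC X K} (hf : OG n f) (f1 : f [] = 1)
    (g1 : g [] = 1) : comp n (f * g) = comp n f + comp n g := by
  have h1 : f * g = (f - 1) * g + g := by noncomm_ring
  rw [h1, comp_add, comp_mul_one (ord_sub_one hf f1) g1, comp_sub_one hn]

theorem inv_nil (u : (NC X K)ˣ) (h : (u : NC X K) [] = 1) : ((u⁻¹ : (NC X K)ˣ) : NC X K) [] = 1 := by
  have := congrArg (fun f : NC X K => f []) u.mul_inv
  simp only [mul_nil, h, one_mul, one_nil] at this
  exact this

theorem og_inv {n : ℕ} (u : (NC X K)ˣ) (h : (u : NC X K) [] = 1) (hu : OG n (u : NC X K)) :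
    OG n ((u⁻¹ : (NC X K)ˣ) : NC X K) := by
  apply og_of_ord
  have e : ((u⁻¹ : (NC X K)ˣ) : NC X K) - 1 = -(((u : NC X K) - 1) * ((u⁻¹ : (NC X K)ˣ) : NC X K)) := by
    have := u.mul_inv
    rw [sub_mul, this]; noncomm_ring
  rw [e]
  intro w hw
  rw [NC.neg_apply, (ord_sub_one hu h).mul_unit w hw, neg_zero]

theorem comp_inv {n : ℕ} (hn : 0 < n) (u : (NC X K)ˣ) (h : (u : NC X K) [] = 1)
    (hu : OG n (u : NC X K)) :
    comp n ((u⁻¹ : (NC X K)ˣ) : NC X K) = -comp n (u : NC X K) := by
  have e : ((u⁻¹ : (NC X K)ˣ) : NC X K) =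
      1 - (((u : NC X K) - 1) * ((u⁻¹ : (NC X K)ˣ) : NC X K)) := by
    have := u.mul_inv
    rw [sub_mul, this]; noncomm_ring
  have h2 : comp n (1 : NC X K) = 0 := by
    have := comp_sub_one hn (1 : NC X K)
    rw [sub_self, comp_zero] at this
    exact this.symm
  rw [e, comp_sub, h2, comp_mul_one (ord_sub_one hu h) (inv_nil u h), comp_sub_one hn, zero_sub]

/-- Conjugation does not change the leading term. -/
theorem og_conj {n : ℕ} (u : (NC X K)ˣ) {f : NC X K} (h : (u : NC X K) [] = 1) (f1 : f [] = 1)
    (hf : OG n f) : OG n ((u : NC X K) * f * ((u⁻¹ : (NC X K)ˣ) : NC X K)) ∧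
      (0 < n → comp n ((u : NC X K) * f * ((u⁻¹ : (NC X K)ˣ) : NC X K)) = comp n f) := by
  have e : (u : NC X K) * f * ((u⁻¹ : (NC X K)ˣ) : NC X K) =
      1 + (u : NC X K) * (f - 1) * ((u⁻¹ : (NC X K)ˣ) : NC X K) := by
    rw [mul_sub, sub_mul, mul_one, u.mul_inv]; noncomm_ring
  have h0 : Ord 0 (u : NC X K) := fun w hw => absurd hw (Nat.not_lt_zero _)
  have h1 : Ord n ((u : NC X K) * (f - 1)) := by simpa using h0.mul (ord_sub_one hf f1)
  constructor
  · apply og_of_ord
    rw [e, add_sub_cancel_left]
    exact h1.mul_unit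
  · intro hn
    have h2 : comp n (1 : NC X K) = 0 := by
      have := comp_sub_one hn (1 : NC X K)
      rw [sub_self, comp_zero] at this
      exact this.symm
    rw [e, comp_add, h2, zero_add, comp_mul_one h1 (inv_nil u h),
      comp_one_mul (ord_sub_one hf f1) h, comp_sub_one hn]

/-- Leading term of a commutator. -/
theorem og_comm {a b : ℕ} (ha : 0 < a) (hb : 0 < b) (x y : (NC X K)ˣ)
    (x1 : (x : NC X K) [] = 1) (y1 : (y : NC X K) [] = 1)
    (hx : OG a (x : NC X K)) (hy : OG b (y : NC X K)) :
    OG (a + b) ((⁅x, y⁆ : (NC X K)ˣ) : NC X K) ∧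
      comp (a + b) ((⁅x, y⁆ : (NC X K)ˣ) : NC X K) = ⁅comp a (x : NC X K), comp b (y : NC X K)⁆ := by
  have hx' := ord_sub_one hx x1
  have hy' := ord_sub_one hy y1
  set Z : NC X K := ((x : NC X K) - 1) * ((y : NC X K) - 1) - ((y : NC X K) - 1) * ((x : NC X K) - 1)
    with hZ
  have hZ2 : Z = (x : NC X K) * y - y * x := by rw [hZ]; noncomm_ring
  have oZ : Ord (a + b) Z := (hx'.mul hy').sub (by rw [add_comm]; exact hy'.mul hx')
  have cZ : comp (a + b) Z = ⁅comp a (x : NC X K), comp b (y : NC X K)⁆ := by
    rw [hZ, comp_sub, comp_mul_ord hx' hy', add_comm a b, comp_mul_ord hy' hx', Ring.lie_def,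
      comp_sub_one ha, comp_sub_one hb]
  have e : ((⁅x, y⁆ : (NC X K)ˣ) : NC X K) =
      1 + Z * (((y * x)⁻¹ : (NC X K)ˣ) : NC X K) := by
    have e1 : (⁅x, y⁆ : (NC X K)ˣ) = x * y * (y * x)⁻¹ := by
      rw [commutatorElement_def]; group
    rw [e1, Units.val_mul, hZ2, sub_mul]
    have e2 : ((y : NC X K) * x) * (((y * x)⁻¹ : (NC X K)ˣ) : NC X K) = 1 := by
      rw [← Units.val_mul, Units.mul_inv]
    rw [e2, Units.val_mul]; noncomm_ring
  have u1 : (((y * x)⁻¹ : (NC X K)ˣ) : NC X K) [] = 1 := by
    apply inv_nil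
    rw [Units.val_mul, mul_nil, x1, y1, one_mul]
  constructor
  · apply og_of_ord
    rw [e, add_sub_cancel_left]
    exact oZ.mul_unit
  · have h2 : comp (a + b) (1 : NC X K) = 0 := by
      have := comp_sub_one (n := a + b) (by omega) (1 : NC X K)
      rw [sub_self, comp_zero] at this
      exact this.symm
    rw [e, comp_add, h2, zero_add, comp_mul_one oZ u1, cZ]

end unit

section lie
variable [CommRing K]

/-- Leading terms of group-like elements are Lie. -/
theorem lead_lie {n : ℕ} (hn : 0 < n) {f : NC X K} (hg : Δ f = T1 f * T2 f) (hf : OG n f) :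
    IsLie (comp n f) := by
  rw [isLie_iff]
  refine ⟨?_, fun a b ha hb => ?_⟩
  · rw [comp_apply, if_neg (by simp; omega)]
  · by_cases h : a.length + b.length = n
    · rw [sh_congr a b (comp n f) f (fun w hw => by rw [comp_apply, if_pos (by omega)])]
      have h1 := congrArg (fun F : NC X (NC X K) => F a b) hg
      simp only [Δ_apply, T1_mul_T2_apply] at h1
      have hbl : 0 < b.length := List.length_pos_iff.mpr hb
      rw [h1, hf a ha (by omega), zero_mul]
    · exact sh_isHom a b _ (comp_isHom n f) h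

end lie

end Pool.Agent.Helper57.Reduce
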