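import Pool.Agent.Helper57.ReduceA

set_option autoImplicit false

/-! # A lower bound for brackets of homogeneous Lie elements (handoff H7-F, part 2) -/

namespace Pool.Agent.Helper57.Reduce

open Pool.Agent.Helper7.Comm Pool.Agent.Helper7.Comm.NC

/-- Sum of squares of the coefficients of degree `i`. -/
def nrm {X : Type*} [Fintype X] {K : Type*} [CommRing K] (i : ℕ) (f : NC X K) : K :=
  ∑ v : Fin i → X, f (List.ofFn v) ^ 2

/-- Inner product of the coefficients of degree `i`. -/
def ip {X : Type*} [Fintype X] {K : Type*} [CommRing K] (i : ℕ) (f g : NC X K) : K :=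
  ∑ v : Fin i → X, f (List.ofFn v) * g (List.ofFn v)

section gen

variable {X : Type*} [Fintype X] {K : Type*} [CommRing K]

theorem exists_ofFn {i : ℕ} (w : List X) (h : w.length = i) : ∃ v : Fin i → X, List.ofFn v = w := by
  subst h
  exact ⟨w.get, List.ofFn_get w⟩

theorem nrm_add (i : ℕ) (f g : NC X K) : nrm i (f + g) = nrm i f + 2 * ip i f g + nrm i g := by
  unfold nrm ip
  rw [Finset.mul_sum, ← Finset.sum_add_distrib, ← Finset.sum_add_distrib]
  exact Finset.sum_congr rfl fun v _ => by rw [NC.add_apply]; ring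

theorem nrm_sub (i : ℕ) (f g : NC X K) : nrm i (f - g) = nrm i f - 2 * ip i f g + nrm i g := by
  unfold nrm ip
  rw [Finset.mul_sum, ← Finset.sum_sub_distrib, ← Finset.sum_add_distrib]
  exact Finset.sum_congr rfl fun v _ => by rw [NC.sub_apply]; ring

theorem nrm_neg (i : ℕ) (f : NC X K) : nrm i (-f) = nrm i f := by
  unfold nrm
  exact Finset.sum_congr rfl fun _ _ => by rw [NC.neg_apply]; ring

theorem ip_comm (i : ℕ) (f g : NC X K) : ip i f g = ip i g f :=
  Finset.sum_congr rfl fun v _ => mul_comm _ _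

theorem nrm_smul (i : ℕ) (c : K) (f : NC X K) : nrm i (c • f) = c ^ 2 * nrm i f := by
  unfold nrm
  rw [Finset.mul_sum]
  exact Finset.sum_congr rfl fun v _ => by rw [NC.smul_apply, smul_eq_mul]; ring

theorem ip_smul_right (i : ℕ) (c : K) (f g : NC X K) : ip i f (c • g) = c * ip i f g := by
  unfold ip
  rw [Finset.mul_sum]
  exact Finset.sum_congr rfl fun v _ => by rw [NC.smul_apply, smul_eq_mul]; ring

theorem ip_smul_left (i : ℕ) (c : K) (f g : NC X K) : ip i (c • f) g = c * ip i f g := by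
  rw [ip_comm, ip_smul_right, ip_comm]

theorem ip_self (i : ℕ) (f : NC X K) : ip i f f = nrm i f :=
  Finset.sum_congr rfl fun v _ => by ring

theorem nrm_comp (i : ℕ) (f : NC X K) : nrm i (comp i f) = nrm i f :=
  Finset.sum_congr rfl fun v _ => by rw [comp_apply, if_pos (by simp)]

end gen

section ord

variable {X : Type*} [Fintype X] {K : Type*} [Field K] [LinearOrder K] [IsStrictOrderedRing K]

theorem nrm_nonneg (i : ℕ) (f : NC X K) : 0 ≤ nrm i f :=
  Finset.sum_nonneg fun _ _ => sq_nonneg _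

theorem sq_le_nrm {i : ℕ} (f : NC X K) {w : List X} (h : w.length = i) : f w ^ 2 ≤ nrm i f := by
  obtain ⟨v, rfl⟩ := exists_ofFn w h
  exact Finset.single_le_sum (f := fun v : Fin i → X => f (List.ofFn v) ^ 2)
    (fun _ _ => sq_nonneg _) (Finset.mem_univ v)

theorem eq_zero_of_nrm {i : ℕ} {f : NC X K} (hf : IsHom i f) (h : nrm i f = 0) : f = 0 := by
  ext w
  by_cases hw : w.length = i
  · have := sq_le_nrm f hw
    rw [h] at this
    have := le_antisymm this (sq_nonneg _)
    simpa using this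
  · exact hf w hw

end ord

section real

variable {X : Type*} [Fintype X]

/-- Embedding of coefficient vectors as homogeneous series. -/
def emb (i : ℕ) : ((Fin i → X) → ℝ) →ₗ[ℝ] NC X ℝ where
  toFun φ := ⟨fun w => if h : w.length = i then φ (fun k => w.get (Fin.cast h.symm k)) else 0⟩
  map_add' φ ψ := by
    ext w
    by_cases h : w.length = i <;> simp [h]
  map_smul' c φ := by
    ext w
    by_cases h : w.length = i <;> simp [h]

theorem emb_isHom (i : ℕ) (φ : (Fin i → X) → ℝ) : IsHom i (emb i φ) := by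
  intro w hw
  simp [emb, hw]

theorem emb_ofFn (i : ℕ) (φ : (Fin i → X) → ℝ) (v : Fin i → X) : emb i φ (List.ofFn v) = φ v := by
  have h : (List.ofFn v).length = i := List.length_ofFn
  simp only [emb, LinearMap.coe_mk, AddHom.coe_mk, mk_apply, dif_pos h]
  congr 1
  ext k
  simp

theorem emb_res {i : ℕ} {f : NC X ℝ} (hf : IsHom i f) : emb i (fun v => f (List.ofFn v)) = f := by
  ext w
  by_cases hw : w.length = i
  · obtain ⟨v, rfl⟩ := exists_ofFn w hw
    rw [emb_ofFn]
  · rw [emb_isHom i _ w hw, hf w hw]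

theorem cont_emb (i : ℕ) (w : List X) : Continuous fun φ : (Fin i → X) → ℝ => emb i φ w := by
  let L : ((Fin i → X) → ℝ) →ₗ[ℝ] ℝ :=
    { toFun := fun φ => emb i φ w
      map_add' := fun φ ψ => by rw [map_add]; rfl
      map_smul' := fun c φ => by rw [map_smul]; rfl }
  exact L.continuous_of_finiteDimensional

theorem cont_sh (i : ℕ) (a b : List X) :
    Continuous fun φ : (Fin i → X) → ℝ => sh a b (emb i φ) := by
  let L : ((Fin i → X) → ℝ) →ₗ[ℝ] ℝ :=
    { toFun := fun φ => sh a b (emb i φ)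
      map_add' := fun φ ψ => by rw [map_add, sh_add]
      map_smul' := fun c φ => by rw [map_smul, sh_smul]; rfl }
  exact L.continuous_of_finiteDimensional

theorem closed_lie (i : ℕ) : IsClosed {φ : (Fin i → X) → ℝ | IsLie (emb i φ)} := by
  have : {φ : (Fin i → X) → ℝ | IsLie (emb i φ)} =
      {φ | emb i φ [] = 0} ∩ ⋂ a : List X, ⋂ b : List X, {φ | a ≠ [] → b ≠ [] → sh a b (emb i φ) = 0} := by
    ext φ
    simp only [Set.mem_ofPred_eq, isLie_iff, Set.mem_inter_iff, Set.mem_iInter]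
  rw [this]
  refine IsClosed.inter (isClosed_eq (cont_emb i []) continuous_const) ?_
  refine isClosed_iInter fun a => isClosed_iInter fun b => ?_
  by_cases ha : a = []
  · simp [ha]
  by_cases hb : b = []
  · simp [hb]
  have e : {φ : (Fin i → X) → ℝ | a ≠ [] → b ≠ [] → sh a b (emb i φ) = 0} =
      {φ | sh a b (emb i φ) = 0} := by
    ext φ; simp [ha, hb]
  rw [e]
  exact isClosed_eq (cont_sh i a b) continuous_const

theorem cont_nrm (i : ℕ) : Continuous fun φ : (Fin i → X) → ℝ => nrm i (emb i φ) := by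
  unfold nrm
  exact continuous_finsetSum _ fun v _ => (cont_emb i _).pow 2

variable [DecidableEq X]

theorem bracket_bound_unit (i j : ℕ) (hi : 0 < i) (hij : i ≤ j) :
    ∃ δ : ℝ, 0 < δ ∧ ∀ a b : NC X ℝ, IsHom i a → IsHom j b → IsLie a → IsLie b →
      nrm i a = 1 → nrm j b = 1 → |ip i a b| ≤ 1 / 2 →
      δ ≤ ∑ u : Fin (i + j) → X, |⁅a, b⁆ (List.ofFn u)| := by
  let S : Set (((Fin i → X) → ℝ) × ((Fin j → X) → ℝ)) :=
    {p | nrm i (emb i p.1) = 1 ∧ nrm j (emb j p.2) = 1 ∧ IsLie (emb i p.1) ∧ IsLie (emb j p.2) ∧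
      |ip i (emb i p.1) (emb j p.2)| ≤ 1 / 2}
  have hclosed : IsClosed S := by
    have c1 : Continuous fun p : ((Fin i → X) → ℝ) × ((Fin j → X) → ℝ) => nrm i (emb i p.1) :=
      (cont_nrm i).comp continuous_fst
    have c2 : Continuous fun p : ((Fin i → X) → ℝ) × ((Fin j → X) → ℝ) => nrm j (emb j p.2) :=
      (cont_nrm j).comp continuous_snd
    have c5 : Continuous fun p : ((Fin i → X) → ℝ) × ((Fin j → X) → ℝ) =>
        |ip i (emb i p.1) (emb j p.2)| := by
      refine Continuous.abs ?_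
      unfold ip
      exact continuous_finsetSum _ fun v _ =>
        ((cont_emb i _).comp continuous_fst).mul ((cont_emb j _).comp continuous_snd)
    exact (isClosed_eq c1 continuous_const).and ((isClosed_eq c2 continuous_const).and
      (((closed_lie i).preimage continuous_fst).and (((closed_lie j).preimage continuous_snd).and
        (isClosed_le c5 continuous_const))))
  have hbdd : S ⊆ Metric.closedBall 0 1 := by
    rintro ⟨φ, ψ⟩ ⟨h1, h2, -⟩
    rw [mem_closedBall_zero_iff, Prod.norm_def]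
    refine max_le ?_ ?_
    · rw [pi_norm_le_iff_of_nonneg zero_le_one]
      intro v
      have h3 := sq_le_nrm (i := i) (emb i φ) (w := List.ofFn v) (by simp)
      rw [emb_ofFn] at h3
      simp only at h1
      rw [h1] at h3
      rw [Real.norm_eq_abs]
      exact (sq_le_one_iff_abs_le_one _).mp h3
    · rw [pi_norm_le_iff_of_nonneg zero_le_one]
      intro v
      have h3 := sq_le_nrm (i := j) (emb j ψ) (w := List.ofFn v) (by simp)
      rw [emb_ofFn] at h3
      simp only at h2
      rw [h2] at h3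
      rw [Real.norm_eq_abs]
      exact (sq_le_one_iff_abs_le_one _).mp h3
  have hcomp : IsCompact S := (isCompact_closedBall 0 1).of_isClosed_subset hclosed hbdd
  let F : ((Fin i → X) → ℝ) × ((Fin j → X) → ℝ) → ℝ := fun p =>
    ∑ u : Fin (i + j) → X, |⁅emb i p.1, emb j p.2⁆ (List.ofFn u)|
  have hF : Continuous F := by
    refine continuous_finsetSum _ fun u _ => Continuous.abs ?_
    simp only [Ring.lie_def, NC.sub_apply, mul_apply]
    refine Continuous.sub ?_ ?_
    · exact continuous_finsetSum _ fun v _ =>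
        ((cont_emb i _).comp continuous_fst).mul ((cont_emb j _).comp continuous_snd)
    · exact continuous_finsetSum _ fun v _ =>
        ((cont_emb j _).comp continuous_snd).mul ((cont_emb i _).comp continuous_fst)
  have hpos : ∀ p ∈ S, 0 < F p := by
    rintro ⟨φ, ψ⟩ ⟨h1, h2, h3, h4, h5⟩
    simp only at h1 h2 h3 h4 h5
    by_contra hcon
    have h0 : F (φ, ψ) = 0 :=
      le_antisymm (not_lt.mp hcon) (Finset.sum_nonneg fun _ _ => abs_nonneg _)
    have hb0 : ⁅emb i φ, emb j ψ⁆ = 0 := by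
      ext w
      by_cases hw : w.length = i + j
      · obtain ⟨u, rfl⟩ := exists_ofFn w hw
        have := (Finset.sum_eq_zero_iff_of_nonneg (fun _ _ => abs_nonneg _)).mp h0 u
          (Finset.mem_univ u)
        simpa using this
      · exact (emb_isHom i φ).lie (emb_isHom j ψ) w hw
    have hx0 : emb i φ ≠ 0 := by
      intro h
      rw [h] at h1
      simp [nrm] at h1
    obtain ⟨c, hc⟩ := lie_comm hi hij (emb_isHom i φ) h3 hx0 (emb_isHom j ψ) h4 hb0
    rcases hij.lt_or_eq with hlt | rfl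
    · have : emb j ψ = 0 := by
        ext w
        by_cases hw : w.length = j
        · rw [hc]
          exact (emb_isHom i φ).smul c w (by omega)
        · exact emb_isHom j ψ w hw
      rw [this] at h2
      simp [nrm] at h2
    · rw [hc, nrm_smul, h1, mul_one] at h2
      rw [hc, ip_smul_right, ip_self, h1, mul_one] at h5
      have : |c| = 1 := by
        rw [← sq_eq_sq₀ (abs_nonneg _) zero_le_one, sq_abs, h2, one_pow]
      linarith
  rcases S.eq_empty_or_nonempty with hS | hS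
  · refine ⟨1, one_pos, fun a b ha hb hal hbl h1 h2 h3 => ?_⟩
    exfalso
    have : ((fun v => a (List.ofFn v)), (fun v => b (List.ofFn v))) ∈ S := by
      refine ⟨?_, ?_, ?_, ?_, ?_⟩ <;> simp only [emb_res ha, emb_res hb] <;> assumption
    rw [hS] at this
    exact this
  · obtain ⟨p0, hp0, hmin⟩ := hcomp.exists_isMinOn hS hF.continuousOn
    refine ⟨F p0, hpos p0 hp0, fun a b ha hb hal hbl h1 h2 h3 => ?_⟩
    have hmem : ((fun v => a (List.ofFn v)), (fun v => b (List.ofFn v))) ∈ S := by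
      refine ⟨?_, ?_, ?_, ?_, ?_⟩ <;> simp only [emb_res ha, emb_res hb] <;> assumption
    have := hmin hmem
    simp only [Set.mem_ofPred_eq] at this
    refine this.trans (le_of_eq ?_)
    simp only [F, emb_res ha, emb_res hb]

theorem bracket_bound_real (i j : ℕ) (hi : 0 < i) (hij : i ≤ j) :
    ∃ C : ℝ, 0 ≤ C ∧ ∀ a b : NC X ℝ, IsHom i a → IsHom j b → IsLie a → IsLie b →
      2 * |ip i a b| ≤ nrm i a → 2 * |ip i a b| ≤ nrm j b →
      ∀ w w' : List X, w.length = i → w'.length = j →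
        ∃ v : List X, v.length = i + j ∧ |a w| * |b w'| ≤ C * |⁅a, b⁆ v| := by
  obtain ⟨δ, hδ, hmain⟩ := bracket_bound_unit (X := X) i j hi hij
  set M : ℝ := (Fintype.card (Fin (i + j) → X) : ℝ) with hM
  refine ⟨M / δ, by positivity, fun a b ha hb hal hbl h1 h2 w w' hw hw' => ?_⟩
  have hne : Nonempty (Fin (i + j) → X) := by
    obtain ⟨v, -⟩ := exists_ofFn (i := i + j) (w ++ w') (by simp [hw, hw'])
    exact ⟨v⟩
  have hMpos : 0 < M := by
    rw [hM]
    exact_mod_cast Fintype.card_pos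
  rcases (nrm_nonneg i a).eq_or_lt with hA | hA
  · refine ⟨w ++ w', by simp [hw, hw'], ?_⟩
    rw [eq_zero_of_nrm ha hA.symm]
    simp only [NC.zero_apply, abs_zero, zero_mul]
    positivity
  rcases (nrm_nonneg j b).eq_or_lt with hB | hB
  · refine ⟨w ++ w', by simp [hw, hw'], ?_⟩
    rw [eq_zero_of_nrm hb hB.symm]
    simp only [NC.zero_apply, abs_zero, mul_zero]
    positivity
  set A := nrm i a with hAdef
  set B := nrm j b with hBdef
  have sA : 0 < Real.sqrt A := Real.sqrt_pos.mpr hA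
  have sB : 0 < Real.sqrt B := Real.sqrt_pos.mpr hB
  have eA : Real.sqrt A ^ 2 = A := Real.sq_sqrt hA.le
  have eB : Real.sqrt B ^ 2 = B := Real.sq_sqrt hB.le
  have hip : |ip i a b| ≤ 1 / 2 * (Real.sqrt A * Real.sqrt B) := by
    have h3 : |ip i a b| ^ 2 ≤ (1 / 2 * (Real.sqrt A * Real.sqrt B)) ^ 2 := by
      have e : (1 / 2 * (Real.sqrt A * Real.sqrt B)) ^ 2 = (1 / 2 * A) * (1 / 2 * B) := by
        rw [mul_pow, mul_pow, eA, eB]; ring
      rw [e, sq]
      exact mul_le_mul (by linarith) (by linarith) (abs_nonneg _) (by positivity)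
    exact (sq_le_sq₀ (abs_nonneg _) (by positivity)).mp h3
  have hsum := hmain ((Real.sqrt A)⁻¹ • a) ((Real.sqrt B)⁻¹ • b) (ha.smul _) (hb.smul _)
    (hal.smul _) (hbl.smul _)
    (by rw [nrm_smul, ← hAdef, inv_pow, eA]; field_simp)
    (by rw [nrm_smul, ← hBdef, inv_pow, eB]; field_simp)
    (by
      rw [ip_smul_left, ip_smul_right, abs_mul, abs_mul, abs_of_pos (inv_pos.mpr sA),
        abs_of_pos (inv_pos.mpr sB)]
      rw [← mul_assoc, ← mul_inv, inv_mul_le_iff₀ (by positivity)]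
      linarith)
  have hscale : ∀ u : Fin (i + j) → X,
      |⁅(Real.sqrt A)⁻¹ • a, (Real.sqrt B)⁻¹ • b⁆ (List.ofFn u)| =
        (Real.sqrt A * Real.sqrt B)⁻¹ * |⁅a, b⁆ (List.ofFn u)| := by
    intro u
    have e : ⁅(Real.sqrt A)⁻¹ • a, (Real.sqrt B)⁻¹ • b⁆ =
        ((Real.sqrt A * Real.sqrt B)⁻¹) • ⁅a, b⁆ := by
      simp only [Ring.lie_def, smul_mul_assoc, mul_smul_comm, smul_sub, smul_smul, mul_inv]
      rw [mul_comm (Real.sqrt B)⁻¹]
    rw [e, NC.smul_apply, smul_eq_mul, abs_mul, abs_of_pos (by positivity)]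
  simp only [hscale] at hsum
  rw [← Finset.mul_sum, ← div_eq_inv_mul, le_div_iff₀ (by positivity)] at hsum
  by_contra hcon
  push Not at hcon
  have hlt : ∑ u : Fin (i + j) → X, M / δ * |⁅a, b⁆ (List.ofFn u)| <
      ∑ _u : Fin (i + j) → X, |a w| * |b w'| := by
    refine Finset.sum_lt_sum_of_nonempty Finset.univ_nonempty fun u _ => ?_
    exact hcon _ (by simp)
  rw [← Finset.mul_sum, Finset.sum_const, Finset.card_univ, nsmul_eq_mul, ← hM] at hlt
  have h4 : |a w| * |b w'| ≤ Real.sqrt A * Real.sqrt B := by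
    refine mul_le_mul ?_ ?_ (abs_nonneg _) sA.le
    · rw [← Real.sqrt_sq_eq_abs]
      exact Real.sqrt_le_sqrt (sq_le_nrm a hw)
    · rw [← Real.sqrt_sq_eq_abs]
      exact Real.sqrt_le_sqrt (sq_le_nrm b hw')
  have h5 : M * (Real.sqrt A * Real.sqrt B) ≤ M / δ * ∑ u : Fin (i + j) → X, |⁅a, b⁆ (List.ofFn u)| := by
    rw [div_mul_eq_mul_div, le_div_iff₀ hδ]
    nlinarith [mul_le_mul_of_nonneg_left hsum hMpos.le]
  have h6 := mul_le_mul_of_nonneg_left h4 hMpos.le
  linarith

end real

section rat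

variable {X : Type*}

/-- Change of coefficients from `ℚ` to `ℝ`. -/
def toR (f : NC X ℚ) : NC X ℝ := ⟨fun w => ((f w : ℚ) : ℝ)⟩

@[simp] theorem toR_apply (f : NC X ℚ) (w : List X) : toR f w = ((f w : ℚ) : ℝ) := rfl

theorem toR_D (x : X) (f : NC X ℚ) : D x (toR f) = toR (D x f) := rfl

theorem toR_mul (f g : NC X ℚ) : toR (f * g) = toR f * toR g := by
  ext w
  rw [toR_apply, mul_apply, mul_apply]
  push_cast
  rfl

theorem toR_sub (f g : NC X ℚ) : toR (f - g) = toR f - toR g := by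
  ext w
  simp

theorem toR_lie (f g : NC X ℚ) : toR ⁅f, g⁆ = ⁅toR f, toR g⁆ := by
  rw [Ring.lie_def, Ring.lie_def, toR_sub, toR_mul, toR_mul]

theorem sh_toR : ∀ (a b : List X) (f : NC X ℚ), sh a b (toR f) = ((sh a b f : ℚ) : ℝ) := by
  intro a b f
  induction hn : a.length + b.length generalizing a b f with
  | zero =>
    obtain rfl : a = [] := by
      cases a
      · rfl
      · simp at hn
    simp
  | succ n ih =>
    cases a with
    | nil => simp
    | cons x a =>
      cases b with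
      | nil => simp
      | cons y b =>
        rw [sh_cons_cons, sh_cons_cons, toR_D, toR_D, ih _ _ _ (by simp at hn ⊢; omega),
          ih _ _ _ (by simp at hn ⊢; omega)]
        push_cast
        rfl

theorem IsLie.toR {f : NC X ℚ} (hf : IsLie f) : IsLie (toR f) := by
  rw [isLie_iff] at *
  refine ⟨by simp [hf.1], fun a b ha hb => ?_⟩
  rw [sh_toR, hf.2 a b ha hb, Rat.cast_zero]

theorem IsHom.toR {n : ℕ} {f : NC X ℚ} (hf : IsHom n f) : IsHom n (toR f) := fun w hw => by
  rw [toR_apply, hf w hw, Rat.cast_zero]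

variable [Fintype X]

theorem nrm_toR (i : ℕ) (f : NC X ℚ) : nrm i (toR f) = ((nrm i f : ℚ) : ℝ) := by
  unfold nrm
  push_cast
  rfl

theorem ip_toR (i : ℕ) (f g : NC X ℚ) : ip i (toR f) (toR g) = ((ip i f g : ℚ) : ℝ) := by
  unfold ip
  push_cast
  rfl

variable [DecidableEq X]

theorem bracket_bound (i j : ℕ) : ∃ C : ℚ, 0 ≤ C ∧ (0 < i → i ≤ j → ∀ a b : NC X ℚ,
      IsHom i a → IsHom j b → IsLie a → IsLie b →
      2 * |ip i a b| ≤ nrm i a → 2 * |ip i a b| ≤ nrm j b →
      ∀ w w' : List X, w.length = i → w'.length = j →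
        ∃ v : List X, v.length = i + j ∧ |a w| * |b w'| ≤ C * |⁅a, b⁆ v|) := by
  by_cases h : 0 < i ∧ i ≤ j
  swap
  · exact ⟨0, le_rfl, fun h1 h2 => absurd ⟨h1, h2⟩ h⟩
  obtain ⟨C, hC, hmain⟩ := bracket_bound_real (X := X) i j h.1 h.2
  obtain ⟨C', hC'⟩ := exists_rat_gt C
  refine ⟨C', ?_, fun _ _ a b ha hb hal hbl h1 h2 w w' hw hw' => ?_⟩
  · have : (0 : ℝ) ≤ (C' : ℝ) := hC.trans hC'.le
    exact_mod_cast this
  obtain ⟨v, hv, hv2⟩ := hmain (toR a) (toR b) (IsHom.toR ha) (IsHom.toR hb) (IsLie.toR hal)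
    (IsLie.toR hbl)
    (by rw [ip_toR, nrm_toR]; exact_mod_cast h1)
    (by rw [ip_toR, nrm_toR]; exact_mod_cast h2) w w' hw hw'
  refine ⟨v, hv, ?_⟩
  rw [← toR_lie] at hv2
  simp only [toR_apply] at hv2
  have h3 : ((|a w| * |b w'| : ℚ) : ℝ) ≤ ((C' * |⁅a, b⁆ v| : ℚ) : ℝ) := by
    push_cast
    exact hv2.trans (mul_le_mul_of_nonneg_right hC'.le (abs_nonneg _))
  exact_mod_cast h3

end rat

end Pool.Agent.Helper57.Reduce
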